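import Mathlib

set_option autoImplicit false

namespace Pool.Agent.Work.MP_f96e05_an

/-- The `n`-th Taylor coefficient `f⁽ⁿ⁾(0) / n!` of `f` at the origin. -/
noncomputable def taylor (f : ℂ → ℂ) (n : ℕ) : ℂ :=
  iteratedDeriv n f 0 / (n.factorial : ℂ)

/-- The numerical range of the composition operator `f ↦ f ∘ φ` on the Hardy space `H²`:
all values `⟨f ∘ φ, f⟩ = ∑ bₙ conj aₙ` for `f = ∑ aₙ zⁿ` analytic on the unit disc with
`∑ |aₙ|² = 1`, where `f ∘ φ = ∑ bₙ zⁿ`. -/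
def numRange (φ : ℂ → ℂ) : Set ℂ :=
  {c | ∃ f : ℂ → ℂ, DifferentiableOn ℂ f (Metric.ball 0 1) ∧
    HasSum (fun n => ‖taylor f n‖ ^ 2) 1 ∧
    HasSum (fun n => taylor (f ∘ φ) n * (starRingEnd ℂ) (taylor f n)) c}

/-- `φ` is an analytic self-map of the unit disc whose radial limits exist and have modulus one
almost everywhere. -/
def IsInnerFn (φ : ℂ → ℂ) : Prop :=
  DifferentiableOn ℂ φ (Metric.ball 0 1) ∧ Set.MapsTo φ (Metric.ball 0 1) (Metric.ball 0 1) ∧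
  ∀ᵐ t : ℝ, ∃ c : ℂ, ‖c‖ = 1 ∧
    Filter.Tendsto (fun r : ℝ => φ ((r : ℂ) * Complex.exp ((t : ℂ) * Complex.I)))
      (nhdsWithin 1 (Set.Iio 1)) (nhds c)

end Pool.Agent.Work.MP_f96e05_an
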