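import Mathlib
import Pool.Agent.Work.MP_f96e05_an.Defs

-- merged part: Pool.Agent.Work.MP_f96e05_an.Hardy
section
set_option autoImplicit false

open MeasureTheory Filter Topology Complex
open scoped ComplexConjugate InnerProductSpace

namespace Pool.Agent.Work.MP_f96e05_an

noncomputable def tau : ℝ := 2 * Real.pi

instance factTau : Fact (0 < tau) := ⟨Real.two_pi_pos⟩

abbrev TT : Type := AddCircle tau

noncomputable abbrev mm : Measure TT := AddCircle.haarAddCircle

noncomputable abbrev LL : Type := Lp ℂ 2 mm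

/-- the coordinate function on the circle -/
noncomputable def ee (x : TT) : ℂ := fourier 1 x

lemma ee_cont : Continuous ee := (fourier 1).continuous

lemma ee_norm (x : TT) : ‖ee x‖ = 1 := Circle.norm_coe _

lemma ee_ne (x : TT) : ee x ≠ 0 := by
  intro h; have := ee_norm x; rw [h] at this; simp at this

lemma fourier_nat (n : ℕ) (x : TT) : fourier (n : ℤ) x = ee x ^ n := by
  induction n with
  | zero => simp
  | succ k ih => rw [Nat.cast_succ, fourier_add, ih, pow_succ]; rfl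

lemma ee_coe (t : ℝ) : ee (t : TT) = exp (t * I) := by
  unfold ee
  rw [fourier_coe_apply]
  congr 1
  have : (Real.pi : ℂ) ≠ 0 := by exact_mod_cast Real.pi_ne_zero
  unfold tau
  push_cast
  field_simp

lemma ee_mul_conj (x : TT) : ee x * conj (ee x) = 1 := by
  rw [mul_conj, normSq_eq_norm_sq, ee_norm]; simp

lemma integrable_mul2 {F G : TT → ℂ} (hF : MemLp F 2 mm) (hG : MemLp G 2 mm) :
    Integrable (fun x => F x * G x) mm := hF.integrable_mul hG

lemma memLp_conj {F : TT → ℂ} (hF : MemLp F 2 mm) : MemLp (fun x => conj (F x)) 2 mm :=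
  hF.star

lemma memLp_bdd {u : TT → ℂ} (hu : AEStronglyMeasurable u mm) {K : ℝ}
    (hK : ∀ᵐ x ∂mm, ‖u x‖ ≤ K) : MemLp u 2 mm := MemLp.of_bound hu K hK

lemma memLp_bdd_mul {u F : TT → ℂ} (hu : AEStronglyMeasurable u mm) {K : ℝ}
    (hK : ∀ᵐ x ∂mm, ‖u x‖ ≤ K) (hF : MemLp F 2 mm) : MemLp (fun x => u x * F x) 2 mm := by
  refine MemLp.of_le_mul (c := K) hF (hu.mul hF.1) ?_
  filter_upwards [hK] with x hx
  rw [norm_mul]
  exact mul_le_mul_of_nonneg_right hx (norm_nonneg _)

lemma memLp_ee_pow (n : ℕ) : MemLp (fun x => ee x ^ n) 2 mm :=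
  memLp_bdd (ee_cont.pow n).aestronglyMeasurable (K := 1)
    (Eventually.of_forall fun x => by simp [ee_norm])

lemma memLp_ee_pow_mul (n : ℕ) {F : TT → ℂ} (hF : MemLp F 2 mm) :
    MemLp (fun x => ee x ^ n * F x) 2 mm :=
  memLp_bdd_mul (ee_cont.pow n).aestronglyMeasurable (K := 1)
    (Eventually.of_forall fun x => by simp [ee_norm]) hF

lemma memLp_one : MemLp (fun _ : TT => (1 : ℂ)) 2 mm := memLp_const 1

lemma integrable_of_memLp {F : TT → ℂ} (hF : MemLp F 2 mm) : Integrable F mm :=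
  hF.integrable (by norm_num)

lemma inner_toLp {F G : TT → ℂ} (hF : MemLp F 2 mm) (hG : MemLp G 2 mm) :
    ⟪hF.toLp F, hG.toLp G⟫_ℂ = ∫ x, conj (F x) * G x ∂mm := by
  rw [L2.inner_def]
  refine integral_congr_ae ?_
  filter_upwards [hF.coeFn_toLp, hG.coeFn_toLp] with x h1 h2
  rw [h1, h2]; simp [mul_comm]

lemma inner_LL (F G : LL) : ⟪F, G⟫_ℂ = ∫ x, conj (F x) * G x ∂mm := by
  rw [L2.inner_def]
  refine integral_congr_ae (Eventually.of_forall fun x => ?_)
  simp [mul_comm]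

lemma integral_conj_mul_self (F : TT → ℂ) :
    ∫ x, conj (F x) * F x ∂mm = ((∫ x, ‖F x‖ ^ 2 ∂mm : ℝ) : ℂ) := by
  rw [← integral_complex_ofReal]
  refine integral_congr_ae (Eventually.of_forall fun x => ?_)
  simp only
  rw [mul_comm, mul_conj, normSq_eq_norm_sq]

lemma normsq_LL (F : LL) : ‖F‖ ^ 2 = ∫ x, ‖F x‖ ^ 2 ∂mm := by
  have h := inner_LL F F
  rw [inner_self_eq_norm_sq_to_K, integral_conj_mul_self] at h
  have h2 : ((‖F‖ ^ 2 : ℝ) : ℂ) = ((∫ x, ‖F x‖ ^ 2 ∂mm : ℝ) : ℂ) := by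
    rw [← h]; simp
  exact_mod_cast h2

lemma integrable_normsq {F : TT → ℂ} (hF : MemLp F 2 mm) :
    Integrable (fun x => ‖F x‖ ^ 2) mm := (memLp_two_iff_integrable_sq_norm hF.1).1 hF

lemma ae_zero_of_normsq {F : TT → ℂ} (hF : MemLp F 2 mm) (h : ∫ x, ‖F x‖ ^ 2 ∂mm = 0) :
    ∀ᵐ x ∂mm, F x = 0 := by
  have := (integral_eq_zero_iff_of_nonneg (fun x => by positivity) (integrable_normsq hF)).1 h
  filter_upwards [this] with x hx
  simpa using hx

/-- boundary functions of `H²` -/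
def IsH (F : TT → ℂ) : Prop := MemLp F 2 mm ∧ ∀ j : ℕ, ∫ x, ee x ^ (j + 1) * F x ∂mm = 0

/-- boundary functions of `H²` with mean zero -/
def IsH0 (F : TT → ℂ) : Prop := MemLp F 2 mm ∧ ∀ j : ℕ, ∫ x, ee x ^ j * F x ∂mm = 0

lemma IsH0.isH {F : TT → ℂ} (h : IsH0 F) : IsH F := ⟨h.1, fun j => h.2 (j + 1)⟩

lemma IsH0.mean {F : TT → ℂ} (h : IsH0 F) : ∫ x, F x ∂mm = 0 := by simpa using h.2 0

lemma IsH.isH0 {F : TT → ℂ} (h : IsH F) (h0 : ∫ x, F x ∂mm = 0) : IsH0 F :=
  ⟨h.1, fun j => by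
    cases j with
    | zero => simpa using h0
    | succ k => exact h.2 k⟩

lemma IsH.congr {F G : TT → ℂ} (h : IsH F) (e : F =ᵐ[mm] G) : IsH G :=
  ⟨(memLp_congr_ae e).1 h.1, fun j => by
    rw [← h.2 j]
    refine integral_congr_ae ?_
    filter_upwards [e] with x hx
    rw [hx]⟩

lemma IsH0.congr {F G : TT → ℂ} (h : IsH0 F) (e : F =ᵐ[mm] G) : IsH0 G :=
  (h.isH.congr e).isH0 (by rw [← h.mean]; exact integral_congr_ae e.symm)

lemma integral_ee_pow (j : ℕ) : ∫ x, ee x ^ (j + 1) ∂mm = 0 := by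
  have h := congrFun (fourierCoeff_fourier (T := tau) ((j + 1 : ℕ) : ℤ)) 0
  rw [Pi.single_eq_of_ne (by omega)] at h
  rw [← h, fourierCoeff]
  refine integral_congr_ae (Eventually.of_forall fun x => ?_)
  simp only [neg_zero, fourier_zero, smul_eq_mul, one_mul]
  rw [fourier_nat]

lemma isH_const (c : ℂ) : IsH (fun _ => c) :=
  ⟨memLp_const c, fun j => by rw [integral_mul_const, integral_ee_pow, zero_mul]⟩

lemma IsH.add {F G : TT → ℂ} (hF : IsH F) (hG : IsH G) : IsH (fun x => F x + G x) :=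
  ⟨hF.1.add hG.1, fun j => by
    simp_rw [mul_add]
    rw [integral_add (integrable_mul2 (memLp_ee_pow _) hF.1)
      (integrable_mul2 (memLp_ee_pow _) hG.1), hF.2, hG.2, add_zero]⟩

lemma IsH.const_mul {F : TT → ℂ} (hF : IsH F) (c : ℂ) : IsH (fun x => c * F x) :=
  ⟨hF.1.const_mul c, fun j => by
    simp_rw [mul_left_comm _ c]
    rw [integral_const_mul, hF.2, mul_zero]⟩

lemma IsH.sub {F G : TT → ℂ} (hF : IsH F) (hG : IsH G) : IsH (fun x => F x - G x) := by
  have := hF.add (hG.const_mul (-1))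
  simpa [sub_eq_add_neg] using this

lemma IsH0.add {F G : TT → ℂ} (hF : IsH0 F) (hG : IsH0 G) : IsH0 (fun x => F x + G x) :=
  (hF.isH.add hG.isH).isH0 (by
    rw [integral_add (integrable_of_memLp hF.1) (integrable_of_memLp hG.1), hF.mean, hG.mean,
      add_zero])

lemma IsH0.const_mul {F : TT → ℂ} (hF : IsH0 F) (c : ℂ) : IsH0 (fun x => c * F x) :=
  (hF.isH.const_mul c).isH0 (by rw [integral_const_mul, hF.mean, mul_zero])

lemma IsH0.sub {F G : TT → ℂ} (hF : IsH0 F) (hG : IsH0 G) : IsH0 (fun x => F x - G x) := by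
  have := hF.add (hG.const_mul (-1))
  simpa [sub_eq_add_neg] using this

lemma IsH.sub_mean {F : TT → ℂ} (hF : IsH F) : IsH0 (fun x => F x - ∫ y, F y ∂mm) :=
  (hF.sub (isH_const _)).isH0 (by
    rw [integral_sub (integrable_of_memLp hF.1) (integrable_const _)]; simp)

lemma coeff_neg {F : TT → ℂ} (j : ℕ) :
    fourierCoeff F (-(j : ℤ)) = ∫ x, ee x ^ j * F x ∂mm := by
  rw [fourierCoeff]
  refine integral_congr_ae (Eventually.of_forall fun x => ?_)
  simp only [neg_neg, smul_eq_mul]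
  rw [fourier_nat]

lemma coeff_conj (F : TT → ℂ) (j : ℤ) :
    fourierCoeff (fun x => conj (F x)) j = conj (fourierCoeff F (-j)) := by
  rw [fourierCoeff, fourierCoeff, ← integral_conj]
  refine integral_congr_ae (Eventually.of_forall fun x => ?_)
  simp only [neg_neg, smul_eq_mul, map_mul]
  rw [fourier_neg]

lemma hasSum_parseval {F G : TT → ℂ} (hF : MemLp F 2 mm) (hG : MemLp G 2 mm) :
    HasSum (fun j : ℤ => conj (fourierCoeff F j) * fourierCoeff G j)
      (∫ x, conj (F x) * G x ∂mm) := by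
  have h := (fourierBasis (T := tau)).hasSum_inner_mul_inner (hF.toLp F) (hG.toLp G)
  rw [inner_toLp] at h
  have e : ∀ j : ℤ, conj (fourierCoeff F j) * fourierCoeff G j =
      ⟪hF.toLp F, fourierBasis j⟫_ℂ * ⟪fourierBasis j, hG.toLp G⟫_ℂ := by
    intro j
    have e1 := fourierBasis_repr (hF.toLp F) j
    have e2 := fourierBasis_repr (hG.toLp G) j
    rw [HilbertBasis.repr_apply_apply] at e1 e2
    rw [fourierCoeff_congr_ae hF.coeFn_toLp] at e1
    rw [fourierCoeff_congr_ae hG.coeFn_toLp] at e2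
    rw [← e1, ← e2, inner_conj_symm]
  simp_rw [e]
  exact h

lemma IsH.coeff {F : TT → ℂ} (h : IsH F) {j : ℤ} (hj : j < 0) : fourierCoeff F j = 0 := by
  obtain ⟨k, rfl⟩ : ∃ k : ℕ, j = -((k + 1 : ℕ) : ℤ) := ⟨(-j - 1).toNat, by omega⟩
  rw [coeff_neg, h.2]

lemma IsH0.coeff {F : TT → ℂ} (h : IsH0 F) {j : ℤ} (hj : j ≤ 0) : fourierCoeff F j = 0 := by
  obtain ⟨k, rfl⟩ : ∃ k : ℕ, j = -(k : ℤ) := ⟨(-j).toNat, by omega⟩
  rw [coeff_neg, h.2]

/-- the basic bilinear orthogonality -/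
lemma integral_mul_eq_zero {F G : TT → ℂ} (hF : IsH0 F) (hG : IsH G) :
    ∫ x, F x * G x ∂mm = 0 := by
  have h := hasSum_parseval (memLp_conj hF.1) hG.1
  simp only [conj_conj] at h
  have h0 : (fun j : ℤ => conj (fourierCoeff (fun x => conj (F x)) j) * fourierCoeff G j)
      = fun _ => 0 := by
    funext j
    rcases lt_or_ge j 0 with hj | hj
    · rw [hG.coeff hj, mul_zero]
    · rw [coeff_conj, hF.coeff (by omega)]; simp
  rw [h0] at h
  exact h.unique hasSum_zero

lemma IsH.ee_mul {F : TT → ℂ} (hF : IsH F) (k : ℕ) : IsH0 (fun x => ee x ^ (k + 1) * F x) :=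
  ⟨memLp_ee_pow_mul _ hF.1, fun j => by
    rw [← hF.2 (j + k)]
    refine integral_congr_ae (Eventually.of_forall fun x => ?_)
    simp only; ring⟩

/-- bounded `H²` functions multiply `H²` -/
lemma IsH.mul {u F : TT → ℂ} (hu : IsH u) {K : ℝ} (hK : ∀ᵐ x ∂mm, ‖u x‖ ≤ K) (hF : IsH F) :
    IsH (fun x => u x * F x) :=
  ⟨memLp_bdd_mul hu.1.1 hK hF.1, fun j => by
    rw [← integral_mul_eq_zero (hu.ee_mul j) hF]
    refine integral_congr_ae (Eventually.of_forall fun x => ?_)
    simp only; ring⟩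

lemma IsH.mean_mul {u F : TT → ℂ} (hu : IsH u) (hF : IsH F) :
    ∫ x, u x * F x ∂mm = (∫ x, u x ∂mm) * ∫ x, F x ∂mm := by
  have h := integral_mul_eq_zero hu.sub_mean hF
  simp_rw [sub_mul] at h
  rw [integral_sub (integrable_mul2 hu.1 hF.1) ((integrable_of_memLp hF.1).const_mul _),
    integral_const_mul] at h
  exact sub_eq_zero.1 h

lemma IsH.mul0 {u F : TT → ℂ} (hu : IsH u) {K : ℝ} (hK : ∀ᵐ x ∂mm, ‖u x‖ ≤ K) (hF : IsH0 F) :
    IsH0 (fun x => u x * F x) :=
  (hu.mul hK hF.isH).isH0 (by rw [hu.mean_mul hF.isH, hF.mean, mul_zero])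


/-- splitting an `L²` function into analytic and anti-analytic parts -/
lemma exists_decomp {F : TT → ℂ} (hF : MemLp F 2 mm) :
    ∃ G K : TT → ℂ, IsH0 G ∧ IsH K ∧ ∀ᵐ x ∂mm, F x = G x + conj (K x) := by
  let b : ℕ → LL := fun j => (memLp_conj (memLp_ee_pow j)).toLp _
  let W : Submodule ℂ LL := (Submodule.span ℂ (Set.range b))ᗮ
  have hW : ∀ G : LL, G ∈ W ↔ ∀ j : ℕ, ∫ x, ee x ^ j * G x ∂mm = 0 := by
    intro G
    have hb : ∀ j : ℕ, ⟪b j, G⟫_ℂ = ∫ x, ee x ^ j * G x ∂mm := by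
      intro j
      rw [inner_LL]
      refine integral_congr_ae ?_
      filter_upwards [(memLp_conj (memLp_ee_pow j)).coeFn_toLp] with x hx
      simp only [b]
      rw [hx, conj_conj]
    constructor
    · intro h j
      rw [← hb]
      exact (Submodule.mem_orthogonal _ _).1 h _ (Submodule.subset_span ⟨j, rfl⟩)
    · intro h
      rw [Submodule.mem_orthogonal]
      intro u hu
      induction hu using Submodule.span_induction with
      | mem y hy => obtain ⟨j, rfl⟩ := hy; rw [hb, h]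
      | zero => simp
      | add y z _ _ h1 h2 => rw [inner_add_left, h1, h2, add_zero]
      | smul c y _ h1 => rw [inner_smul_left, h1, mul_zero]
  obtain ⟨y, hy, z, hz, e⟩ := W.exists_add_mem_mem_orthogonal (hF.toLp F)
  refine ⟨y, fun x => conj (z x), ⟨Lp.memLp y, (hW y).1 hy⟩, ⟨memLp_conj (Lp.memLp z), ?_⟩, ?_⟩
  · intro j
    have hm : (memLp_ee_pow (j + 1)).toLp _ ∈ W := by
      rw [hW]
      intro k
      rw [← integral_ee_pow (k + j)]
      refine integral_congr_ae ?_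
      filter_upwards [(memLp_ee_pow (j + 1)).coeFn_toLp] with x hx
      rw [hx]; ring
    have h1 := (Submodule.mem_orthogonal' _ _).1 hz _ hm
    rw [inner_LL] at h1
    rw [← h1]
    refine integral_congr_ae ?_
    filter_upwards [(memLp_ee_pow (j + 1)).coeFn_toLp] with x hx
    rw [hx, mul_comm]
  · have h1 := hF.coeFn_toLp
    rw [e] at h1
    filter_upwards [h1, Lp.coeFn_add y z] with x h2 h3
    rw [← h2, h3, conj_conj]; rfl

lemma exists_decomp0 {F : TT → ℂ} (hF : MemLp F 2 mm) (h0 : ∫ x, F x ∂mm = 0) :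
    ∃ G K : TT → ℂ, IsH0 G ∧ IsH0 K ∧ ∀ᵐ x ∂mm, F x = G x + conj (K x) := by
  obtain ⟨G, K, hG, hK, e⟩ := exists_decomp hF
  refine ⟨G, K, hG, hK.isH0 ?_, e⟩
  rw [integral_congr_ae e, integral_add (integrable_of_memLp hG.1)
    (integrable_of_memLp (memLp_conj hK.1)), hG.mean, zero_add, integral_conj] at h0
  simpa using h0

/-- for `Y ∈ H²₀`, `‖Y‖² = 2 ‖Im Y‖²` -/
lemma IsH0.normsq_eq {Y : TT → ℂ} (hY : IsH0 Y) :
    ∫ x, ‖Y x‖ ^ 2 ∂mm = 2 * ∫ x, (Y x).im ^ 2 ∂mm := by
  have h := integral_mul_eq_zero hY hY.isH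
  have hi := integrable_mul2 hY.1 hY.1
  have h2 : ∫ x, (Y x * Y x).re ∂mm = 0 := by
    have := integral_re hi
    simp only [RCLike.re_to_complex] at this
    rw [this, h]; simp
  have hn := integrable_normsq hY.1
  have h3 : ∀ x, (Y x).im ^ 2 = (1 / 2) * (‖Y x‖ ^ 2 - (Y x * Y x).re) := by
    intro x
    rw [← normSq_eq_norm_sq, normSq_apply, mul_re]; ring
  simp_rw [h3]
  have hi2 : Integrable (fun x => (Y x * Y x).re) mm := hi.re
  rw [integral_const_mul, integral_sub hn hi2, h2]; ring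

lemma IsH0.zero_of_im {Y : TT → ℂ} (hY : IsH0 Y) (h : ∀ᵐ x ∂mm, (Y x).im = 0) :
    ∀ᵐ x ∂mm, Y x = 0 := by
  apply ae_zero_of_normsq hY.1
  rw [hY.normsq_eq]
  have : ∫ x, (Y x).im ^ 2 ∂mm = ∫ _x : TT, (0 : ℝ) ∂mm := by
    refine integral_congr_ae ?_
    filter_upwards [h] with x hx
    rw [hx]; simp
  rw [this]; simp

/-- an `H²` function with vanishing real part is an imaginary constant -/
lemma IsH.const_of_re {F : TT → ℂ} (hF : IsH F) (h : ∀ᵐ x ∂mm, (F x).re = 0) :
    ∃ k : ℝ, ∀ᵐ x ∂mm, F x = I * k := by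
  have hre : (∫ y, F y ∂mm).re = 0 := by
    have := integral_re (integrable_of_memLp hF.1)
    simp only [RCLike.re_to_complex] at this
    rw [← this, integral_congr_ae h]; simp
  have h2 := (hF.sub_mean.const_mul I).zero_of_im (by
    filter_upwards [h] with x hx
    simp [hx, hre])
  refine ⟨(∫ y, F y ∂mm).im, ?_⟩
  filter_upwards [h2] with x hx
  have h3 : F x = ∫ y, F y ∂mm := sub_eq_zero.1 ((mul_eq_zero.1 hx).resolve_left I_ne_zero)
  rw [h3]
  apply Complex.ext <;> simp [hre]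

/-- Herglotz transform of a real `L²` function -/
lemma exists_herglotz {g : TT → ℝ} (hg : MemLp (fun x => (g x : ℂ)) 2 mm) :
    ∃ L : TT → ℂ, IsH L ∧ (∀ᵐ x ∂mm, (L x).re = g x) ∧
      ∫ x, L x ∂mm = ((∫ x, g x ∂mm : ℝ) : ℂ) := by
  obtain ⟨G, K, hG, hK, e⟩ := exists_decomp hg
  refine ⟨fun x => G x + K x, hG.isH.add hK, ?_, ?_⟩
  · filter_upwards [e] with x hx
    have := congrArg Complex.re hx
    simpa using this.symm
  · rw [integral_add (integrable_of_memLp hG.1) (integrable_of_memLp hK.1), hG.mean, zero_add]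
    have h1 := integral_congr_ae e
    rw [integral_add (integrable_of_memLp hG.1) (integrable_of_memLp (memLp_conj hK.1)),
      hG.mean, zero_add, integral_conj, integral_complex_ofReal] at h1
    have := congrArg conj h1
    simpa using this.symm

/-- a continuous functional vanishing on all characters vanishes -/
lemma clm_eq_zero (l : C(TT, ℂ) →L[ℂ] ℂ) (h : ∀ j : ℤ, l (fourier j) = 0) (c : C(TT, ℂ)) :
    l c = 0 := by
  have hc : c ∈ (Submodule.span ℂ (Set.range (fourier (T := tau)))).topologicalClosure := by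
    rw [span_fourier_closure_eq_top]; trivial
  have hle : (Submodule.span ℂ (Set.range (fourier (T := tau)))).topologicalClosure ≤
      LinearMap.ker (l : C(TT, ℂ) →ₗ[ℂ] ℂ) := by
    refine Submodule.topologicalClosure_minimal _ ?_ l.isClosed_ker
    rw [Submodule.span_le]
    rintro _ ⟨j, rfl⟩
    exact h j
  exact hle hc

/-- pairing a continuous function of a measurable map against an integrable function -/
lemma integral_cont_comp_eq_zero {G : TT → ℂ} (hG : Integrable G mm) {θ : TT → TT}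
    (hθ : AEMeasurable θ mm) (h : ∀ j : ℤ, ∫ x, fourier j (θ x) * G x ∂mm = 0)
    (c : C(TT, ℂ)) : ∫ x, c (θ x) * G x ∂mm = 0 := by
  have hint : ∀ c : C(TT, ℂ), Integrable (fun x => c (θ x) * G x) mm := fun c =>
    hG.bdd_mul (c := ‖c‖) (c.continuous.measurable.comp_aemeasurable hθ).aestronglyMeasurable
      (Eventually.of_forall fun x => c.norm_coe_le_norm _)
  let l0 : C(TT, ℂ) →ₗ[ℂ] ℂ :=
    { toFun := fun c => ∫ x, c (θ x) * G x ∂mm
      map_add' := fun c d => by
        simp only [ContinuousMap.add_apply, add_mul]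
        exact integral_add (hint c) (hint d)
      map_smul' := fun a c => by
        simp only [ContinuousMap.smul_apply, smul_eq_mul, RingHom.id_apply, mul_assoc]
        exact integral_const_mul _ _ }
  let l : C(TT, ℂ) →L[ℂ] ℂ := l0.mkContinuous (∫ x, ‖G x‖ ∂mm) (fun c => by
    refine (norm_integral_le_integral_norm _).trans ?_
    rw [mul_comm _ ‖c‖, ← integral_const_mul]
    refine integral_mono (hint c).norm (hG.norm.const_mul _) fun x => ?_
    simp only [norm_mul]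
    exact mul_le_mul_of_nonneg_right (c.norm_coe_le_norm _) (norm_nonneg _))
  exact clm_eq_zero l h c

lemma real_ae_zero_of_cont {g : TT → ℝ} (hg : Integrable g mm)
    (h : ∀ c : C(TT, ℝ), ∫ x, c x * g x ∂mm = 0) : ∀ᵐ x ∂mm, g x = 0 := by
  let μ1 := mm.withDensity (fun x => ENNReal.ofReal (g x))
  let μ2 := mm.withDensity (fun x => ENNReal.ofReal (-g x))
  have : IsFiniteMeasure μ1 := isFiniteMeasure_withDensity_ofReal hg.2
  have : IsFiniteMeasure μ2 := isFiniteMeasure_withDensity_ofReal hg.neg.2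
  have hm1 : AEMeasurable (fun x => ENNReal.ofReal (g x)) mm := hg.1.aemeasurable.ennreal_ofReal
  have hm2 : AEMeasurable (fun x => ENNReal.ofReal (-g x)) mm :=
    hg.1.aemeasurable.neg.ennreal_ofReal
  have e : μ1 = μ2 := by
    refine ext_of_forall_integral_eq_of_IsFiniteMeasure fun c => ?_
    rw [integral_withDensity_eq_integral_toReal_smul₀ hm1 (by simp),
      integral_withDensity_eq_integral_toReal_smul₀ hm2 (by simp)]
    have hb : ∀ u : TT → ℝ, Integrable u mm → Integrable (fun x => u x • c x) mm := fun u hu => by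
      simp only [smul_eq_mul]
      exact hu.mul_bdd (c := ‖c‖) c.continuous.aestronglyMeasurable
        (Eventually.of_forall fun x => c.norm_coe_le_norm _)
    have h1 := hb _ hg.pos_part
    have h2 := hb _ hg.neg_part
    have h3 := h ⟨c, c.continuous⟩
    have h4 : ∫ x, (max (g x) 0 • c x - max (-g x) 0 • c x) ∂mm = 0 := by
      refine Eq.trans ?_ h3
      refine integral_congr_ae (Eventually.of_forall fun x => ?_)
      simp only [smul_eq_mul, ContinuousMap.coe_mk]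
      rw [← sub_mul, max_zero_sub_max_neg_zero_eq_self, mul_comm]
    rw [integral_sub h1 h2] at h4
    simp only [ENNReal.toReal_ofReal']
    exact sub_eq_zero.1 h4
  have := (withDensity_eq_iff_of_sigmaFinite hm1 hm2).1 e
  filter_upwards [this] with x hx
  rcases le_total 0 (g x) with h0 | h0
  · rw [ENNReal.ofReal_of_nonpos (neg_nonpos.2 h0), ENNReal.ofReal_eq_zero] at hx
    linarith
  · rw [ENNReal.ofReal_of_nonpos h0, eq_comm, ENNReal.ofReal_eq_zero] at hx
    linarith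

/-- uniqueness theorem for Fourier coefficients in `L¹` -/
lemma ae_zero_of_fourier {G : TT → ℂ} (hG : Integrable G mm)
    (h : ∀ j : ℤ, ∫ x, fourier j x * G x ∂mm = 0) : ∀ᵐ x ∂mm, G x = 0 := by
  have key : ∀ c : C(TT, ℝ), ∫ x, (c x : ℂ) * G x ∂mm = 0 := fun c =>
    integral_cont_comp_eq_zero hG aemeasurable_id h
      ⟨fun x => (c x : ℂ), continuous_ofReal.comp c.continuous⟩
  have hint : ∀ c : C(TT, ℝ), Integrable (fun x => (c x : ℂ) * G x) mm := fun c =>
    hG.bdd_mul (c := ‖c‖) (continuous_ofReal.comp c.continuous).aestronglyMeasurable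
      (Eventually.of_forall fun x => by simpa using c.norm_coe_le_norm x)
  have h1 := real_ae_zero_of_cont hG.re fun c => by
    have := integral_re (hint c)
    rw [key c] at this
    simpa using this
  have h2 := real_ae_zero_of_cont hG.im fun c => by
    have := integral_im (hint c)
    rw [key c] at this
    simpa using this
  filter_upwards [h1, h2] with x h1 h2
  exact Complex.ext h1 h2

end Pool.Agent.Work.MP_f96e05_an
end

-- merged part: Pool.Agent.Work.MP_f96e05_an.Holo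
section
set_option autoImplicit false

open MeasureTheory Filter Topology Complex Metric
open scoped ComplexConjugate InnerProductSpace

namespace Pool.Agent.Work.MP_f96e05_an

lemma integral_circle (g : ℂ → ℂ) : ∫ x, g (ee x) ∂mm = Real.circleAverage g 0 1 := by
  rw [AddCircle.integral_haarAddCircle, Real.circleAverage_def,
    ← AddCircle.intervalIntegral_preimage tau 0 (fun x => g (ee x))]
  simp only [zero_add, ee_coe, circleMap, ofReal_one, one_mul]
  rfl

lemma ee_mem_closedBall (x : TT) : ee x ∈ closedBall (0 : ℂ) 1 := by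
  simp [ee_norm]

lemma dc_cont {g : ℂ → ℂ} (hg : DiffContOnCl ℂ g (ball 0 1)) : Continuous fun x => g (ee x) := by
  have h := hg.continuousOn
  rw [closure_ball _ one_ne_zero] at h
  exact h.comp_continuous ee_cont ee_mem_closedBall

lemma memLp_cont {u : TT → ℂ} (hu : Continuous u) : MemLp u 2 mm := by
  obtain ⟨K, hK⟩ := (isCompact_univ.image hu.norm).bddAbove
  exact memLp_bdd hu.aestronglyMeasurable (K := K)
    (Eventually.of_forall fun x => hK ⟨x, trivial, rfl⟩)

lemma dc_mean {g : ℂ → ℂ} (hg : DiffContOnCl ℂ g (ball 0 1)) : ∫ x, g (ee x) ∂mm = g 0 := by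
  rw [integral_circle]
  exact DiffContOnCl.circleAverage (by simpa using hg)

lemma dc_isH {g : ℂ → ℂ} (hg : DiffContOnCl ℂ g (ball 0 1)) : IsH fun x => g (ee x) :=
  ⟨memLp_cont (dc_cont hg), fun j => by
    have h : DiffContOnCl ℂ (fun z => z ^ (j + 1) * g z) (ball 0 1) :=
      DiffContOnCl.smul (c := fun z : ℂ => z ^ (j + 1))
        (Differentiable.diffContOnCl (by fun_prop)) hg
    simpa using dc_mean h⟩

/-- Cauchy kernel -/
noncomputable def cau (z : ℂ) (x : TT) : ℂ := ee x / (ee x - z)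

/-- Cauchy integral -/
noncomputable def ev (F : TT → ℂ) (z : ℂ) : ℂ := ∫ x, cau z x * F x ∂mm

lemma ee_sub_ne {z : ℂ} (hz : ‖z‖ < 1) (x : TT) : ee x - z ≠ 0 := by
  intro h
  rw [sub_eq_zero] at h
  rw [← h, ee_norm] at hz
  exact lt_irrefl _ hz

lemma cau_cont {z : ℂ} (hz : ‖z‖ < 1) : Continuous (cau z) :=
  ee_cont.div (ee_cont.sub continuous_const) (ee_sub_ne hz)

lemma cau_norm_le {z : ℂ} (hz : ‖z‖ < 1) (x : TT) : ‖cau z x‖ ≤ 1 / (1 - ‖z‖) := by
  rw [cau, norm_div, ee_norm]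
  apply one_div_le_one_div_of_le (by linarith)
  have := norm_sub_norm_le (ee x) z
  rwa [ee_norm] at this

lemma dc_ev {g : ℂ → ℂ} (hg : DiffContOnCl ℂ g (ball 0 1)) {z : ℂ} (hz : ‖z‖ < 1) :
    ev (fun x => g (ee x)) z = g z := by
  have h := DiffContOnCl.circleAverage_smul_div (f := g) (c := 0) (R := 1) (w := z)
    (by simpa using hg) (by simpa using hz)
  rw [← h, ← integral_circle]
  simp [ev, cau]

lemma ev_zero (F : TT → ℂ) : ev F 0 = ∫ x, F x ∂mm := by
  simp [ev, cau, ee_ne]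

lemma ev_congr {F G : TT → ℂ} (h : F =ᵐ[mm] G) (z : ℂ) : ev F z = ev G z := by
  refine integral_congr_ae ?_
  filter_upwards [h] with x hx
  rw [hx]

lemma dilate_dc {g : ℂ → ℂ} (hg : DifferentiableOn ℂ g (ball 0 1)) {r : ℝ} (hr : |r| < 1) :
    DiffContOnCl ℂ (fun z => g (r * z)) (ball 0 1) := by
  apply DifferentiableOn.diffContOnCl
  rw [closure_ball _ one_ne_zero]
  refine hg.comp (by fun_prop) fun z hz => ?_
  simp only [mem_closedBall, dist_zero_right, mem_ball] at hz ⊢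
  rw [norm_mul, norm_real, Real.norm_eq_abs]
  linarith only [hr, hz, abs_nonneg r, norm_nonneg z, mul_nonneg_of_nonpos_of_nonpos (Mathlib.Tactic.Linarith.sub_nonpos_of_le hz) (Mathlib.Tactic.Linarith.sub_nonpos_of_le (abs_nonneg r))]

/-- radii tending to one -/
noncomputable def rr (n : ℕ) : ℝ := 1 - 1 / ((n : ℝ) + 2)

lemma rr_pos (n : ℕ) : 0 < rr n := by
  have : 1 / ((n : ℝ) + 2) < 1 := by
    rw [div_lt_one (by positivity)]; linarith [Nat.cast_nonneg (α := ℝ) n]
  unfold rr; linarith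

lemma rr_lt (n : ℕ) : rr n < 1 := by
  have : 0 < 1 / ((n : ℝ) + 2) := by positivity
  unfold rr; linarith only [this]

lemma rr_abs (n : ℕ) : |rr n| < 1 := by rw [abs_of_pos (rr_pos n)]; exact rr_lt n

lemma rr_tendsto : Tendsto rr atTop (𝓝 1) := by
  have h : Tendsto (fun n : ℕ => 1 / ((n : ℝ) + 2)) atTop (𝓝 0) :=
    tendsto_const_nhds.div_atTop (tendsto_atTop_add_const_right _ _ tendsto_natCast_atTop_atTop)
  have h2 := h.const_sub 1
  rw [sub_zero] at h2
  exact h2

lemma rr_tendsto' : Tendsto rr atTop (𝓝[<] 1) :=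
  tendsto_nhdsWithin_iff.2 ⟨rr_tendsto, Eventually.of_forall rr_lt⟩

lemma rr_mem (n : ℕ) (x : TT) : (rr n : ℂ) * ee x ∈ ball (0 : ℂ) 1 := by
  simp [ee_norm, rr_abs]

lemma tendsto_dilate {g : ℂ → ℂ} (hg : DifferentiableOn ℂ g (ball 0 1)) {z : ℂ} (hz : ‖z‖ < 1) :
    Tendsto (fun n => g (rr n * z)) atTop (𝓝 (g z)) := by
  have hc : ContinuousAt g z :=
    (hg.differentiableAt (isOpen_ball.mem_nhds (by simpa using hz))).continuousAt
  have : Tendsto (fun n => (rr n : ℂ) * z) atTop (𝓝 z) := by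
    have := (continuous_ofReal.tendsto 1).comp rr_tendsto
    simpa using this.mul_const z
  exact hc.tendsto.comp this

/-- bounded analytic functions with radial limits -/
lemma bdd_boundary {g : ℂ → ℂ} (hg : DifferentiableOn ℂ g (ball 0 1)) {K : ℝ}
    (hK : ∀ z ∈ ball (0 : ℂ) 1, ‖g z‖ ≤ K) {G : TT → ℂ}
    (hG : ∀ᵐ x ∂mm, Tendsto (fun n => g (rr n * ee x)) atTop (𝓝 (G x))) :
    IsH G ∧ ∀ z : ℂ, ‖z‖ < 1 → ev G z = g z := by
  have hc : ∀ n, Continuous fun x => g (rr n * ee x) := fun n => dc_cont (dilate_dc hg (rr_abs n))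
  have hm : AEStronglyMeasurable G mm :=
    aestronglyMeasurable_of_tendsto_ae atTop (fun n => (hc n).aestronglyMeasurable) hG
  have hb : ∀ᵐ x ∂mm, ‖G x‖ ≤ K := by
    filter_upwards [hG] with x hx
    exact le_of_tendsto' hx.norm fun n => hK _ (rr_mem n x)
  have key : ∀ (u : TT → ℂ) (C : ℝ), Continuous u → (∀ x, ‖u x‖ ≤ C) →
      Tendsto (fun n => ∫ x, u x * g (rr n * ee x) ∂mm) atTop (𝓝 (∫ x, u x * G x ∂mm)) := by
    intro u C hu hC
    refine tendsto_integral_of_dominated_convergence (fun _ => C * K)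
      (fun n => (hu.mul (hc n)).aestronglyMeasurable) (integrable_const _) (fun n => ?_) ?_
    · refine Eventually.of_forall fun x => ?_
      rw [norm_mul]
      exact mul_le_mul (hC x) (hK _ (rr_mem n x)) (norm_nonneg _) ((norm_nonneg _).trans (hC x))
    · filter_upwards [hG] with x hx
      exact hx.const_mul _
  refine ⟨⟨memLp_bdd hm hb, fun j => ?_⟩, fun z hz => ?_⟩
  · have h1 := key (fun x => ee x ^ (j + 1)) 1 (ee_cont.pow _) (fun x => by simp [ee_norm])
    have h2 : ∀ n, ∫ x, ee x ^ (j + 1) * g (rr n * ee x) ∂mm = 0 := fun n =>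
      (dc_isH (dilate_dc hg (rr_abs n))).2 j
    simp_rw [h2] at h1
    exact tendsto_nhds_unique h1 tendsto_const_nhds
  · have h1 := key (cau z) _ (cau_cont hz) (cau_norm_le hz)
    have h2 : ∀ n, ∫ x, cau z x * g (rr n * ee x) ∂mm = g (rr n * z) := fun n =>
      dc_ev (dilate_dc hg (rr_abs n)) hz
    simp_rw [h2] at h1
    exact tendsto_nhds_unique h1 (tendsto_dilate hg hz)

lemma coeff_nat (F : TT → ℂ) (n : ℕ) :
    fourierCoeff F (n : ℤ) = ∫ x, conj (ee x) ^ n * F x ∂mm := by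
  rw [fourierCoeff]
  refine integral_congr_ae (Eventually.of_forall fun x => ?_)
  simp only [smul_eq_mul]
  rw [fourier_neg, fourier_nat, map_pow]

lemma coeff_norm_le (F : TT → ℂ) (j : ℤ) : ‖fourierCoeff F j‖ ≤ ∫ x, ‖F x‖ ∂mm := by
  rw [fourierCoeff]
  refine (norm_integral_le_integral_norm _).trans (le_of_eq ?_)
  refine integral_congr_ae (Eventually.of_forall fun x => ?_)
  simp only [smul_eq_mul, norm_mul]
  rw [show ‖fourier (-j) x‖ = 1 from Circle.norm_coe _, one_mul]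

lemma hasSum_ev {F : TT → ℂ} (hF : Integrable F mm) {z : ℂ} (hz : ‖z‖ < 1) :
    HasSum (fun n : ℕ => fourierCoeff F n * z ^ n) (ev F z) := by
  have hint : ∀ n : ℕ, Integrable (fun x => (z * conj (ee x)) ^ n * F x) mm := fun n =>
    hF.bdd_mul (c := ‖z‖ ^ n) (by
      have := ee_cont
      exact Continuous.aestronglyMeasurable (by fun_prop))
      (Eventually.of_forall fun x => by simp [ee_norm])
  have hs : Summable fun n : ℕ => ∫ x, ‖(z * conj (ee x)) ^ n * F x‖ ∂mm := by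
    have : (fun n : ℕ => ∫ x, ‖(z * conj (ee x)) ^ n * F x‖ ∂mm) =
        fun n => ‖z‖ ^ n * ∫ x, ‖F x‖ ∂mm := by
      funext n
      rw [← integral_const_mul]
      simp [ee_norm]
    rw [this]
    exact (summable_geometric_of_lt_one (norm_nonneg _) hz).mul_right _
  have h := hasSum_integral_of_summable_integral_norm hint hs
  have e1 : ∀ n : ℕ, ∫ x, (z * conj (ee x)) ^ n * F x ∂mm = fourierCoeff F n * z ^ n := by
    intro n
    rw [coeff_nat, ← integral_mul_const]
    refine integral_congr_ae (Eventually.of_forall fun x => ?_)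
    simp only; ring
  have e2 : ∀ x, ∑' n : ℕ, (z * conj (ee x)) ^ n * F x = cau z x * F x := by
    intro x
    rw [tsum_mul_right, tsum_geometric_of_norm_lt_one (by simpa [ee_norm] using hz)]
    congr 1
    have h1 := ee_mul_conj x
    have h2 := ee_sub_ne hz x
    have h3 : 1 - z * conj (ee x) = (ee x - z) * conj (ee x) := by rw [sub_mul, h1]
    have h4 : conj (ee x) = (ee x)⁻¹ := eq_inv_of_mul_eq_one_right h1
    rw [h3, h4, cau]
    field_simp [ee_ne x]
  simp_rw [e1, e2] at h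
  exact h

lemma taylor_of_hasSum {a : ℕ → ℂ} {K : ℝ} (hK : ∀ n, ‖a n‖ ≤ K) {f : ℂ → ℂ}
    (hf : ∀ z : ℂ, ‖z‖ < 1 → HasSum (fun n => a n * z ^ n) (f z)) :
    DifferentiableOn ℂ f (ball 0 1) ∧ ∀ n, taylor f n = a n := by
  have hp : HasFPowerSeriesOnBall f (FormalMultilinearSeries.ofScalars ℂ a) 0 1 := by
    refine ⟨?_, one_pos, fun {y} hy => ?_⟩
    · have := (FormalMultilinearSeries.ofScalars ℂ a).le_radius_of_bound K (r := 1) (fun n => by
        simpa [FormalMultilinearSeries.ofScalars_norm] using hK n)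
      simpa using this
    · have hy' : ‖y‖ < 1 := by
        have : y ∈ Metric.eball (0 : ℂ) ((1 : NNReal) : ENNReal) := by simpa using hy
        rw [Metric.eball_coe] at this
        simpa using this
      simpa [FormalMultilinearSeries.ofScalars_apply_eq, mul_comm] using hf y hy'
  refine ⟨?_, fun n => ?_⟩
  · have := hp.differentiableOn
    rw [show (1 : ENNReal) = ((1 : NNReal) : ENNReal) from rfl, Metric.eball_coe] at this
    simpa using this
  · have := hp.factorial_smul 1 n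
    rw [taylor, iteratedDeriv_eq_iteratedFDeriv, ← this]
    have hn : (n.factorial : ℂ) ≠ 0 := by exact_mod_cast n.factorial_ne_zero
    simp
    field_simp

lemma ev_taylor {F : TT → ℂ} (hF : Integrable F mm) {f : ℂ → ℂ}
    (hf : ∀ z : ℂ, ‖z‖ < 1 → f z = ev F z) :
    DifferentiableOn ℂ f (ball 0 1) ∧ ∀ n : ℕ, taylor f n = fourierCoeff F n :=
  taylor_of_hasSum (fun n => coeff_norm_le F n) fun z hz => by
    rw [hf z hz]; exact hasSum_ev hF hz

lemma ev_diff {F : TT → ℂ} (hF : Integrable F mm) : DifferentiableOn ℂ (ev F) (ball 0 1) :=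
  (ev_taylor hF fun _ _ => rfl).1

end Pool.Agent.Work.MP_f96e05_an
end

-- merged part: Pool.Agent.Work.MP_f96e05_an.Mult
section
set_option autoImplicit false
set_option maxHeartbeats 400000

open MeasureTheory Filter Topology Complex Metric
open scoped ComplexConjugate InnerProductSpace

namespace Pool.Agent.Work.MP_f96e05_an

/-- Poisson kernel -/
noncomputable def pk (z : ℂ) (x : TT) : ℝ := (1 - ‖z‖ ^ 2) / ‖ee x - z‖ ^ 2

lemma pk_nonneg {z : ℂ} (hz : ‖z‖ < 1) (x : TT) : 0 ≤ pk z x := by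
  have : ‖z‖ ^ 2 ≤ 1 := by linarith only [hz, norm_nonneg z, mul_nonneg_of_nonpos_of_nonpos (le_of_lt (Mathlib.Tactic.Linarith.sub_neg_of_lt hz)) (Mathlib.Tactic.Linarith.sub_nonpos_of_le (norm_nonneg z))]
  unfold pk
  exact div_nonneg (by linarith) (by positivity)

lemma pk_le {z : ℂ} (hz : ‖z‖ < 1) (x : TT) : pk z x ≤ 1 / (1 - ‖z‖) ^ 2 := by
  have h1 : 1 - ‖z‖ ≤ ‖ee x - z‖ := by
    have := norm_sub_norm_le (ee x) z
    rwa [ee_norm] at this
  have h0 : 0 < 1 - ‖z‖ := by linarith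
  unfold pk
  refine div_le_div₀ zero_le_one (by linarith only [norm_nonneg z, sq_nonneg ‖z‖]) (by positivity) ?_
  exact pow_le_pow_left₀ h0.le h1 2

lemma pk_cont {z : ℂ} (hz : ‖z‖ < 1) : Continuous (pk z) :=
  continuous_const.div ((ee_cont.sub continuous_const).norm.pow 2)
    fun x => pow_ne_zero _ (norm_ne_zero_iff.2 (ee_sub_ne hz x))

lemma pk_eq {z : ℂ} (hz : ‖z‖ < 1) (x : TT) :
    (pk z x : ℂ) = cau z x + conj z * ee x / (1 - conj z * ee x) := by
  have h1 := ee_mul_conj x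
  have h2 := ee_sub_ne hz x
  have h4 : conj (ee x) = (ee x)⁻¹ := eq_inv_of_mul_eq_one_right h1
  have h5 : (1 - conj z * ee x) = ee x * conj (ee x - z) := by
    rw [map_sub, mul_sub, h1]; ring
  have h6 : conj (ee x - z) ≠ 0 := by rwa [map_ne_zero]
  have h7 : ((‖ee x - z‖ ^ 2 : ℝ) : ℂ) = (ee x - z) * conj (ee x - z) := by
    rw [mul_conj, normSq_eq_norm_sq]
  have h8 : ((‖z‖ ^ 2 : ℝ) : ℂ) = z * conj z := by rw [mul_conj, normSq_eq_norm_sq]
  have h9 := ee_ne x
  rw [pk, ofReal_div, ofReal_sub, h7, h8, h5, cau, ofReal_one]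
  field_simp
  rw [map_sub]
  linear_combination (-1 : ℂ) * h1

lemma integral_pk_mul {F : TT → ℂ} (hF : IsH F) {z : ℂ} (hz : ‖z‖ < 1) :
    ∫ x, (pk z x : ℂ) * F x ∂mm = ev F z := by
  have hd : DiffContOnCl ℂ (fun w => conj z * w / (1 - conj z * w)) (ball 0 1) := by
    apply DifferentiableOn.diffContOnCl
    rw [closure_ball _ one_ne_zero]
    refine DifferentiableOn.div (by fun_prop) (by fun_prop) fun w hw h => ?_
    have h1 : ‖conj z * w‖ = 1 := by rw [← sub_eq_zero.1 h, norm_one]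
    simp only [mem_closedBall, dist_zero_right] at hw
    rw [norm_mul, norm_conj] at h1
    linarith only [hz, h1, hw, norm_nonneg z, norm_nonneg w, mul_nonneg_of_nonpos_of_nonpos (Mathlib.Tactic.Linarith.sub_nonpos_of_le hw) (Mathlib.Tactic.Linarith.sub_nonpos_of_le (norm_nonneg z))]
  have h0 : IsH0 fun x => conj z * ee x / (1 - conj z * ee x) :=
    (dc_isH hd).isH0 (by simpa using dc_mean hd)
  simp_rw [pk_eq hz, add_mul]
  rw [integral_add (integrable_mul2 (memLp_cont (cau_cont hz)) hF.1) (integrable_mul2 h0.1 hF.1),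
    integral_mul_eq_zero h0 hF, add_zero, ev]

lemma ev_const (c : ℂ) {z : ℂ} (hz : ‖z‖ < 1) : ev (fun _ => c) z = c :=
  dc_ev (g := fun _ => c) diffContOnCl_const hz

lemma integral_pk {z : ℂ} (hz : ‖z‖ < 1) : ∫ x, pk z x ∂mm = 1 := by
  have h := integral_pk_mul (isH_const 1) hz
  rw [ev_const 1 hz] at h
  simp only [mul_one] at h
  rw [integral_complex_ofReal] at h
  exact_mod_cast h

lemma re_ev_le {F : TT → ℂ} (hF : IsH F) {K : ℝ} (hK : ∀ᵐ x ∂mm, (F x).re ≤ K) {z : ℂ}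
    (hz : ‖z‖ < 1) : (ev F z).re ≤ K := by
  have hp : MemLp (fun x => (pk z x : ℂ)) 2 mm := memLp_cont (continuous_ofReal.comp (pk_cont hz))
  have hi := integrable_mul2 hp hF.1
  have h1 := integral_re hi
  simp only [RCLike.re_to_complex] at h1
  rw [← integral_pk_mul hF hz, ← h1]
  have h2 : ∫ x, pk z x * K ∂mm = K := by rw [integral_mul_const, integral_pk hz, one_mul]
  rw [← h2]
  refine integral_mono_ae hi.re (((pk_cont hz).integrable_of_hasCompactSupport
    (HasCompactSupport.of_compactSpace _)).mul_const K) ?_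
  filter_upwards [hK] with x hx
  simpa using mul_le_mul_of_nonneg_left hx (pk_nonneg hz x)

lemma integral_norm_le_sqrt {F : TT → ℂ} (hF : MemLp F 2 mm) :
    (∫ x, ‖F x‖ ∂mm) ^ 2 ≤ ∫ x, ‖F x‖ ^ 2 ∂mm := by
  set c := ∫ x, ‖F x‖ ∂mm with hc
  have hi := (integrable_of_memLp hF).norm
  have hn := integrable_normsq hF
  have h0 : 0 ≤ ∫ x, (‖F x‖ ^ 2 - 2 * c * ‖F x‖ + c ^ 2) ∂mm :=
    integral_nonneg fun x => by simp only [Pi.zero_apply]; linarith only [sq_nonneg (‖F x‖ - c), sq_nonneg (‖F x‖ - c)]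
  have h1 : Integrable (fun x => ‖F x‖ ^ 2 - 2 * c * ‖F x‖) mm := hn.sub (hi.const_mul _)
  rw [integral_add h1 (integrable_const _),
    integral_sub hn (hi.const_mul _), integral_const_mul, ← hc] at h0
  simp at h0
  nlinarith

lemma hasSum_normsq {F : TT → ℂ} (hF : MemLp F 2 mm) :
    HasSum (fun j : ℤ => ‖fourierCoeff F j‖ ^ 2) (∫ x, ‖F x‖ ^ 2 ∂mm) := by
  have h := hasSum_sq_fourierCoeff (hF.toLp F)
  rw [fourierCoeff_congr_ae hF.coeFn_toLp] at h
  have e : ∫ x, ‖(hF.toLp F) x‖ ^ 2 ∂mm = ∫ x, ‖F x‖ ^ 2 ∂mm := by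
    refine integral_congr_ae ?_
    filter_upwards [hF.coeFn_toLp] with x hx
    rw [hx]
  exact e ▸ h

lemma coeff_sub {F G : TT → ℂ} (hF : Integrable F mm) (hG : Integrable G mm) (j : ℤ) :
    fourierCoeff (fun x => F x - G x) j = fourierCoeff F j - fourierCoeff G j := by
  simp only [fourierCoeff, smul_sub]
  exact integral_sub (hF.fourier_smul _) (hG.fourier_smul _)

lemma dilate_tendsto {F : TT → ℂ} (hF : IsH F) :
    Tendsto (fun n => ∫ x, ‖ev F (rr n * ee x) - F x‖ ^ 2 ∂mm) atTop (𝓝 0) := by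
  have hi := integrable_of_memLp hF.1
  have hd : ∀ n, DiffContOnCl ℂ (fun z => ev F (rr n * z)) (ball 0 1) := fun n =>
    dilate_dc (ev_diff hi) (rr_abs n)
  have hH : ∀ n, IsH fun x => ev F (rr n * ee x) := fun n =>
    dc_isH (g := fun z => ev F (rr n * z)) (hd n)
  have hc : ∀ n (j : ℤ), fourierCoeff (fun x => ev F (rr n * ee x)) j =
      fourierCoeff F j * (rr n : ℂ) ^ j.toNat := by
    intro n j
    rcases lt_or_ge j 0 with hj | hj
    · rw [(hH n).coeff hj, hF.coeff hj, zero_mul]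
    · obtain ⟨k, rfl⟩ := Int.eq_ofNat_of_zero_le hj
      have h1 := (ev_taylor (integrable_of_memLp (hH n).1) (f := fun z => ev F (rr n * z))
        fun z hz => (dc_ev (g := fun z => ev F (rr n * z)) (hd n) hz).symm).2 k
      have h2 := (taylor_of_hasSum (a := fun k : ℕ => fourierCoeff F k * (rr n : ℂ) ^ k)
        (K := ∫ x, ‖F x‖ ∂mm) (f := fun z => ev F (rr n * z)) (fun k => by
          rw [norm_mul, norm_pow, norm_real, Real.norm_eq_abs]
          refine (mul_le_of_le_one_right (norm_nonneg _)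
            (pow_le_one₀ (abs_nonneg _) (rr_abs n).le)).trans (coeff_norm_le F k))
        fun z hz => by
          have hz' : ‖(rr n : ℂ) * z‖ < 1 := by
            rw [norm_mul, norm_real, Real.norm_eq_abs]
            linarith only [hz, rr_abs n, abs_nonneg (rr n), norm_nonneg z, mul_nonneg_of_nonpos_of_nonpos (le_of_lt (Mathlib.Tactic.Linarith.sub_neg_of_lt hz)) (Mathlib.Tactic.Linarith.sub_nonpos_of_le (abs_nonneg (rr n)))]
          simpa [mul_pow, mul_assoc] using hasSum_ev hi hz').2 k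
      rw [← h1, h2]; simp
  have e : ∀ n, ∫ x, ‖ev F (rr n * ee x) - F x‖ ^ 2 ∂mm =
      ∑' j : ℤ, ‖fourierCoeff F j‖ ^ 2 * (1 - rr n ^ j.toNat) ^ 2 := by
    intro n
    rw [← (hasSum_normsq ((hH n).sub hF).1).tsum_eq]
    refine tsum_congr fun j => ?_
    have := coeff_sub (integrable_of_memLp (hH n).1) hi j
    rw [this, hc, ← mul_sub_one, norm_mul, mul_pow]
    congr 1
    rw [← norm_neg, neg_sub, ← ofReal_pow, ← ofReal_one, ← ofReal_sub, norm_real, Real.norm_eq_abs,
      sq_abs]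
  simp_rw [e]
  have := tendsto_tsum_of_dominated_convergence (𝓕 := atTop)
    (f := fun n (j : ℤ) => ‖fourierCoeff F j‖ ^ 2 * (1 - rr n ^ j.toNat) ^ 2) (g := fun _ => 0)
    (hasSum_normsq hF.1).summable (fun j => by
      have h1 := ((rr_tendsto.pow j.toNat).const_sub 1).pow 2
      simpa using h1.const_mul (‖fourierCoeff F j‖ ^ 2))
    (Eventually.of_forall fun n j => by
      have h1 : 0 ≤ rr n ^ j.toNat := pow_nonneg (rr_pos n).le _
      have h2 : rr n ^ j.toNat ≤ 1 := pow_le_one₀ (rr_pos n).le (rr_lt n).le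
      rw [Real.norm_eq_abs, abs_of_nonneg (by positivity)]
      exact mul_le_of_le_one_right (by positivity) (by linarith only [h1, h2, mul_nonneg_of_nonpos_of_nonpos (Mathlib.Tactic.Linarith.sub_nonpos_of_le h1) (Mathlib.Tactic.Linarith.sub_nonpos_of_le h2)]))
  simpa using this

lemma exp_lip {a b : ℂ} {K : ℝ} (ha : a.re ≤ K) (hb : b.re ≤ K) :
    ‖exp a - exp b‖ ≤ Real.exp K * ‖a - b‖ := by
  refine Convex.norm_image_sub_le_of_norm_deriv_le (𝕜 := ℂ) (f := exp) (s := {z : ℂ | z.re ≤ K})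
    (fun z _ => differentiableAt_exp) (fun z hz => ?_) (convex_halfSpace_re_le K) hb ha
  rw [Complex.deriv_exp, norm_exp]
  exact Real.exp_le_exp.2 hz

/-- exponentials of `H²` functions with real part bounded above -/
lemma exp_isH {L : TT → ℂ} (hL : IsH L) {K : ℝ} (hK : ∀ᵐ x ∂mm, (L x).re ≤ K) :
    IsH (fun x => exp (L x)) ∧ ∫ x, exp (L x) ∂mm = exp (∫ x, L x ∂mm) := by
  have hi := integrable_of_memLp hL.1
  have hd : ∀ n, DiffContOnCl ℂ (fun z => exp (ev L (rr n * z))) (ball 0 1) := fun n =>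
    differentiable_exp.comp_diffContOnCl (dilate_dc (ev_diff hi) (rr_abs n))
  have hH : ∀ n, IsH fun x => ev L (rr n * ee x) := fun n =>
    dc_isH (g := fun z => ev L (rr n * z)) (dilate_dc (ev_diff hi) (rr_abs n))
  have hH' : ∀ n, IsH fun x => exp (ev L (rr n * ee x)) := fun n =>
    dc_isH (g := fun z => exp (ev L (rr n * z))) (hd n)
  have hm : MemLp (fun x => exp (L x)) 2 mm :=
    memLp_bdd (continuous_exp.comp_aestronglyMeasurable hL.1.1) (K := Real.exp K) (by
      filter_upwards [hK] with x hx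
      rw [norm_exp]; exact Real.exp_le_exp.2 hx)
  have hL1 : Tendsto (fun n => ∫ x, ‖ev L (rr n * ee x) - L x‖ ∂mm) atTop (𝓝 0) := by
    have h1 := (dilate_tendsto hL).sqrt
    rw [Real.sqrt_zero] at h1
    refine squeeze_zero (fun n => integral_nonneg fun x => norm_nonneg _) (fun n => ?_) h1
    exact Real.le_sqrt_of_sq_le (integral_norm_le_sqrt ((hH n).1.sub hL.1))
  have key : ∀ j : ℕ, Tendsto (fun n => ∫ x, ee x ^ j * exp (ev L (rr n * ee x)) ∂mm) atTop
      (𝓝 (∫ x, ee x ^ j * exp (L x) ∂mm)) := by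
    intro j
    rw [tendsto_iff_norm_sub_tendsto_zero]
    have h2 := hL1.const_mul (Real.exp K)
    rw [mul_zero] at h2
    refine squeeze_zero (fun n => norm_nonneg _) (fun n => ?_) h2
    have i1 := integrable_mul2 (memLp_ee_pow j) (hH' n).1
    have i2 := integrable_mul2 (memLp_ee_pow j) hm
    rw [← integral_sub i1 i2, ← integral_const_mul]
    refine norm_integral_le_of_norm_le
      ((integrable_of_memLp ((hH n).1.sub hL.1)).norm.const_mul _) ?_
    filter_upwards [hK] with x hx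
    rw [← mul_sub, norm_mul, norm_pow, ee_norm, one_pow, one_mul]
    exact exp_lip (re_ev_le hL hK (by simpa using rr_mem n x)) hx
  refine ⟨⟨hm, fun j => ?_⟩, ?_⟩
  · have h1 := key (j + 1)
    have h2 : ∀ n, ∫ x, ee x ^ (j + 1) * exp (ev L (rr n * ee x)) ∂mm = 0 := fun n =>
      (hH' n).2 j
    simp_rw [h2] at h1
    exact tendsto_nhds_unique h1 tendsto_const_nhds
  · have h1 := key 0
    have h2 : ∀ n, ∫ x, ee x ^ 0 * exp (ev L (rr n * ee x)) ∂mm = exp (∫ x, L x ∂mm) := fun n => by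
      have := dc_mean (g := fun z => exp (ev L (rr n * z))) (hd n)
      simp only [mul_zero, ev_zero] at this
      simpa using this
    simp_rw [h2] at h1
    simpa using tendsto_nhds_unique h1 tendsto_const_nhds

lemma isH_shift {F : TT → ℂ} (hF : IsH0 F) : IsH fun x => conj (ee x) * F x :=
  ⟨memLp_bdd_mul (continuous_conj.comp ee_cont).aestronglyMeasurable (K := 1)
    (Eventually.of_forall fun x => by simp [ee_norm]) hF.1, fun j => by
    rw [← hF.2 j]
    refine integral_congr_ae (Eventually.of_forall fun x => ?_)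
    simp only
    rw [pow_succ, mul_assoc, ← mul_assoc (ee x), ee_mul_conj, one_mul]⟩

lemma ae_zero_of_coeff {F : TT → ℂ} (hF : MemLp F 2 mm) (h : ∀ j, fourierCoeff F j = 0) :
    ∀ᵐ x ∂mm, F x = 0 := by
  apply ae_zero_of_normsq hF
  have h1 := hasSum_normsq hF
  simp only [h, norm_zero, ne_eq, OfNat.ofNat_ne_zero, not_false_eq_true, zero_pow] at h1
  exact h1.unique hasSum_zero

/-- a weight `g ≥ 0` which does not enlarge `|F|` too much has bounded integral -/
lemma mean_exp_le {F : TT → ℂ} (hF : IsH F) {g : TT → ℝ} (hg : AEStronglyMeasurable g mm)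
    {K : ℝ} (hK : ∀ᵐ x ∂mm, |g x| ≤ K) :
    ‖∫ x, F x ∂mm‖ * Real.exp (∫ x, g x ∂mm) ≤ ∫ x, Real.exp (g x) * ‖F x‖ ∂mm := by
  obtain ⟨L, hL, hre, hmean⟩ := exists_herglotz (g := g)
    (memLp_bdd (continuous_ofReal.comp_aestronglyMeasurable hg) (K := K) (by simpa using hK))
  obtain ⟨h1, h2⟩ := exp_isH hL (K := K) (by
    filter_upwards [hre, hK] with x h1 h2
    rw [h1]; exact (le_abs_self _).trans h2)
  have h3 := h1.mean_mul hF
  rw [h2, hmean] at h3
  have h4 := norm_integral_le_integral_norm (μ := mm) fun x => exp (L x) * F x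
  rw [h3, norm_mul, norm_exp, ofReal_re, mul_comm (Real.exp _)] at h4
  refine h4.trans (le_of_eq (integral_congr_ae ?_))
  filter_upwards [hre] with x hx
  rw [norm_mul, norm_exp, hx]

/-- uniqueness theorem: a nonzero `H²` function is nonzero almost everywhere -/
lemma IsH.zero_of_zero_on {F : TT → ℂ} (hF : IsH F) {A : Set TT} (hA : MeasurableSet A)
    (hA0 : mm A ≠ 0) (h : ∀ᵐ x ∂mm, x ∈ A → F x = 0) : ∀ᵐ x ∂mm, F x = 0 := by
  have hpos : 0 < mm.real A := ENNReal.toReal_pos hA0 (measure_ne_top _ _)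
  have step : ∀ G : TT → ℂ, IsH G → (∀ᵐ x ∂mm, x ∈ A → G x = 0) → IsH0 G := by
    intro G hG hz
    refine hG.isH0 ?_
    by_contra hne
    have hc : 0 < ‖∫ x, G x ∂mm‖ := norm_pos_iff.2 hne
    have hb : ∀ t : ℝ, ‖∫ x, G x ∂mm‖ * Real.exp (t * mm.real A) ≤ ∫ x, ‖G x‖ ∂mm := by
      intro t
      have h1 := mean_exp_le hG (g := A.indicator fun _ => t)
        (aestronglyMeasurable_const.indicator hA) (K := |t|)
        (Eventually.of_forall fun x => by
          by_cases hx : x ∈ A <;> simp [hx])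
      rw [integral_indicator_const _ hA, smul_eq_mul, mul_comm (mm.real A)] at h1
      refine h1.trans (le_of_eq (integral_congr_ae ?_))
      filter_upwards [hz] with x hx
      by_cases hxA : x ∈ A
      · simp [hx hxA]
      · simp [hxA]
    have ht : Tendsto (fun t : ℝ => ‖∫ x, G x ∂mm‖ * Real.exp (t * mm.real A)) atTop atTop :=
      (Real.tendsto_exp_atTop.comp (tendsto_id.atTop_mul_const hpos)).const_mul_atTop hc
    obtain ⟨t, ht⟩ := (ht.eventually_gt_atTop (∫ x, ‖G x‖ ∂mm)).exists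
    exact absurd (hb t) (not_le.2 ht)
  have ind : ∀ k : ℕ, IsH0 fun x => conj (ee x) ^ k * F x := by
    intro k
    induction k with
    | zero => simpa using step F hF h
    | succ k ih =>
      refine step _ ((isH_shift ih).congr (Eventually.of_forall fun x => ?_)) ?_
      · simp only; ring
      · filter_upwards [h] with x hx hxA
        rw [hx hxA, mul_zero]
  refine ae_zero_of_coeff hF.1 fun j => ?_
  rcases lt_or_ge j 0 with hj | hj
  · exact hF.coeff hj
  · obtain ⟨k, rfl⟩ := Int.eq_ofNat_of_zero_le hj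
    rw [coeff_nat, (ind k).mean]

lemma IsH.ae_ne_zero {F : TT → ℂ} (hF : IsH F) (h : ¬ ∀ᵐ x ∂mm, F x = 0) :
    ∀ᵐ x ∂mm, F x ≠ 0 := by
  have hm := hF.1.1.aemeasurable
  by_contra hne
  apply h
  let A : Set TT := hm.mk F ⁻¹' {0}
  have hA : MeasurableSet A := hm.measurable_mk (measurableSet_singleton 0)
  refine hF.zero_of_zero_on hA (fun h0 => hne ?_) ?_
  · have : ∀ᵐ x ∂mm, x ∉ A := measure_eq_zero_iff_ae_notMem.1 h0
    filter_upwards [this, hm.ae_eq_mk] with x h1 h2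
    rw [h2]; exact h1
  · filter_upwards [hm.ae_eq_mk] with x h2 h1
    rw [h2]; exact h1

end Pool.Agent.Work.MP_f96e05_an
end

-- merged part: Pool.Agent.Work.MP_f96e05_an.Sys
section
set_option autoImplicit false
set_option maxHeartbeats 400000

open MeasureTheory Filter Topology Complex Metric
open scoped ComplexConjugate InnerProductSpace NNReal ENNReal

namespace Pool.Agent.Work.MP_f96e05_an

/-- a linear class of functions, stable under a.e. equality -/
structure IsLin (P : (TT → ℂ) → Prop) : Prop where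
  congr : ∀ {F G}, P F → F =ᵐ[mm] G → P G
  zero : P fun _ => 0
  add : ∀ {F G}, P F → P G → P fun x => F x + G x
  smul : ∀ (c : ℂ) {F}, P F → P fun x => c * F x
  mem : ∀ {F}, P F → MemLp F 2 mm

/-- the subspace of `L²` attached to a linear class -/
def IsLin.sub {P : (TT → ℂ) → Prop} (h : IsLin P) : Submodule ℂ LL where
  carrier := {G | P G}
  zero_mem' := h.congr h.zero (Lp.coeFn_zero _ _ _).symm
  add_mem' := fun {a b} ha hb => h.congr (h.add ha hb) (Lp.coeFn_add a b).symm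
  smul_mem' := fun c a ha => h.congr (h.smul c ha) (Lp.coeFn_smul c a).symm

lemma IsLin.toLp_mem {P : (TT → ℂ) → Prop} (h : IsLin P) {F : TT → ℂ} (hF : P F) :
    (h.mem hF).toLp F ∈ h.sub := h.congr hF (h.mem hF).coeFn_toLp.symm

lemma IsLin.sub' {P : (TT → ℂ) → Prop} (h : IsLin P) {F G : TT → ℂ} (hF : P F) (hG : P G) :
    P fun x => F x - G x := by
  have := h.add hF (h.smul (-1) hG)
  simpa [sub_eq_add_neg] using this

lemma IsLin.approx {P : (TT → ℂ) → Prop} (h : IsLin P) {F0 : TT → ℂ} (h0 : MemLp F0 2 mm)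
    (ho : ∀ y, MemLp y 2 mm → (∀ F, P F → ∫ x, conj (F x) * y x ∂mm = 0) →
      ∫ x, conj (y x) * F0 x ∂mm = 0) :
    h0.toLp F0 ∈ closure (h.sub : Set LL) := by
  have : h0.toLp F0 ∈ h.sub.topologicalClosure := by
    rw [← Submodule.orthogonal_orthogonal_eq_closure, Submodule.mem_orthogonal]
    intro y hy
    rw [inner_LL, ← ho y (Lp.memLp y) fun F hF => ?_]
    · refine integral_congr_ae ?_
      filter_upwards [h0.coeFn_toLp] with x hx
      rw [hx]
    · have h1 := (Submodule.mem_orthogonal _ _).1 hy _ (h.toLp_mem hF)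
      rw [inner_LL] at h1
      rw [← h1]
      refine integral_congr_ae ?_
      filter_upwards [(h.mem hF).coeFn_toLp] with x hx
      rw [hx]
  exact this

lemma IsLin.approx' {P : (TT → ℂ) → Prop} (h : IsLin P) {F0 : TT → ℂ} (h0 : MemLp F0 2 mm)
    (ho : ∀ y, MemLp y 2 mm → (∀ F, P F → ∫ x, conj (F x) * y x ∂mm = 0) →
      ∫ x, conj (y x) * F0 x ∂mm = 0) {ε : ℝ} (hε : 0 < ε) :
    ∃ F, P F ∧ ∫ x, ‖F0 x - F x‖ ^ 2 ∂mm ≤ ε ^ 2 := by
  obtain ⟨G, hG, hd⟩ := Metric.mem_closure_iff.1 (h.approx h0 ho) ε hε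
  refine ⟨G, hG, ?_⟩
  rw [dist_eq_norm] at hd
  have h1 := normsq_LL (h0.toLp F0 - G)
  have h2 : ∫ x, ‖(h0.toLp F0 - G) x‖ ^ 2 ∂mm = ∫ x, ‖F0 x - G x‖ ^ 2 ∂mm := by
    refine integral_congr_ae ?_
    filter_upwards [h0.coeFn_toLp, Lp.coeFn_sub (h0.toLp F0) G] with x h1 h2
    rw [h2, Pi.sub_apply, h1]
  rw [← h2, ← h1]
  exact pow_le_pow_left₀ (norm_nonneg _) hd.le 2

lemma IsLin.proj {P : (TT → ℂ) → Prop} (h : IsLin P) (hc : IsClosed {G : LL | P G})
    {F0 : TT → ℂ} (h0 : MemLp F0 2 mm) :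
    ∃ F, P F ∧ ∀ G, P G → ∫ x, conj (G x) * F0 x ∂mm = ∫ x, conj (G x) * F x ∂mm := by
  have : CompleteSpace h.sub := hc.completeSpace_coe
  obtain ⟨y, hy, z, hz, e⟩ := h.sub.exists_add_mem_mem_orthogonal (h0.toLp F0)
  refine ⟨y, hy, fun G hG => ?_⟩
  have h1 := (Submodule.mem_orthogonal _ _).1 hz _ (h.toLp_mem hG)
  rw [← inner_toLp (h.mem hG) h0, e, inner_add_right, h1, add_zero, inner_LL]
  refine integral_congr_ae ?_
  filter_upwards [(h.mem hG).coeFn_toLp] with x hx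
  rw [hx]

lemma isLin_H0 : IsLin IsH0 :=
  ⟨fun h e => h.congr e, (isH_const 0).isH0 (by simp), fun h1 h2 => h1.add h2,
    fun c _ h => h.const_mul c, fun h => h.1⟩

lemma isClosed_H0 : IsClosed {G : LL | IsH0 G} := by
  have : {G : LL | IsH0 G} =
      ⋂ j : ℕ, {G : LL | ⟪(memLp_conj (memLp_ee_pow j)).toLp _, G⟫_ℂ = 0} := by
    ext G
    have hb : ∀ j : ℕ, ⟪(memLp_conj (memLp_ee_pow j)).toLp _, G⟫_ℂ =
        ∫ x, ee x ^ j * G x ∂mm := by
      intro j
      rw [inner_LL]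
      refine integral_congr_ae ?_
      filter_upwards [(memLp_conj (memLp_ee_pow j)).coeFn_toLp] with x hx
      rw [hx, conj_conj]
    simp only [Set.mem_ofPred_eq, Set.mem_iInter, hb]
    exact ⟨fun h => h.2, fun h => ⟨Lp.memLp G, h⟩⟩
  rw [this]
  exact isClosed_iInter fun j => isClosed_eq (by fun_prop) continuous_const

/-- measurable maps with bounded distortion of the measure -/
structure IsPre (S : TT → TT) : Prop where
  meas : Measurable S
  bound : ∃ K : ℝ≥0, Measure.map S mm ≤ (K : ℝ≥0∞) • mm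

variable {S : TT → TT}

lemma IsPre.qmp (h : IsPre S) : Measure.QuasiMeasurePreserving S mm mm :=
  ⟨h.meas, by obtain ⟨K, hK⟩ := h.bound; exact Measure.absolutelyContinuous_of_le_smul hK⟩

lemma IsPre.ae (h : IsPre S) {p : TT → Prop} (hp : ∀ᵐ x ∂mm, p x) : ∀ᵐ x ∂mm, p (S x) :=
  h.qmp.ae hp

lemma IsPre.memLp (h : IsPre S) {F : TT → ℂ} (hF : MemLp F 2 mm) :
    MemLp (fun x => F (S x)) 2 mm := by
  obtain ⟨K, hK⟩ := h.bound
  exact (hF.of_measure_le_smul ENNReal.coe_ne_top hK).comp_of_map h.meas.aemeasurable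

lemma IsPre.normsq_le (h : IsPre S) : ∃ K : ℝ, 0 ≤ K ∧ ∀ F : TT → ℂ, MemLp F 2 mm →
    ∫ x, ‖F (S x)‖ ^ 2 ∂mm ≤ K ^ 2 * ∫ x, ‖F x‖ ^ 2 ∂mm := by
  obtain ⟨K, hK⟩ := h.bound
  refine ⟨Real.sqrt K, Real.sqrt_nonneg _, fun F hF => ?_⟩
  have hi := integrable_normsq hF
  have h1 := integral_map (μ := mm) h.meas.aemeasurable (f := fun x => ‖F x‖ ^ 2)
    (hi.1.mono_ac h.qmp.absolutelyContinuous)
  rw [← h1, Real.sq_sqrt K.coe_nonneg]
  refine (integral_mono_measure hK (Eventually.of_forall fun x => by positivity)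
    (hi.smul_measure ENNReal.coe_ne_top)).trans (le_of_eq ?_)
  rw [integral_smul_measure]; simp

lemma IsPre.exists_clm (h : IsPre S) :
    ∃ C : LL →L[ℂ] LL, ∀ F : LL, (C F : TT → ℂ) =ᵐ[mm] fun x => F (S x) := by
  obtain ⟨K, hK0, hK⟩ := h.normsq_le
  let l : LL →ₗ[ℂ] LL :=
    { toFun := fun F => (h.memLp (Lp.memLp F)).toLp _
      map_add' := fun F G => by
        rw [← MemLp.toLp_add]
        refine MemLp.toLp_congr _ _ ?_
        filter_upwards [h.ae (Lp.coeFn_add F G)] with x hx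
        exact hx
      map_smul' := fun c F => by
        rw [RingHom.id_apply, ← MemLp.toLp_const_smul]
        refine MemLp.toLp_congr _ _ ?_
        filter_upwards [h.ae (Lp.coeFn_smul c F)] with x hx
        exact hx }
  have hl : ∀ F : LL, (l F : TT → ℂ) =ᵐ[mm] fun x => F (S x) := fun F =>
    (h.memLp (Lp.memLp F)).coeFn_toLp
  refine ⟨l.mkContinuous K fun F => ?_, hl⟩
  refine (pow_le_pow_iff_left₀ (norm_nonneg _) (by positivity) two_ne_zero).1 ?_
  rw [mul_pow, normsq_LL, normsq_LL]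
  refine le_trans (le_of_eq (integral_congr_ae ?_)) (hK F (Lp.memLp F))
  filter_upwards [hl F] with x hx
  rw [hx]

/-- the sesquilinear form of the composition operator -/
noncomputable def qq (S : TT → TT) (F G : TT → ℂ) : ℂ := ∫ x, conj (F x) * G (S x) ∂mm

/-- squared norm -/
noncomputable def nn (F : TT → ℂ) : ℝ := ∫ x, ‖F x‖ ^ 2 ∂mm

lemma nn_nonneg (F : TT → ℂ) : 0 ≤ nn F := integral_nonneg fun x => by positivity

lemma nn_congr {F G : TT → ℂ} (e : F =ᵐ[mm] G) : nn F = nn G := by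
  refine integral_congr_ae ?_
  filter_upwards [e] with x hx
  rw [hx]

lemma IsPre.qq_congr (h : IsPre S) {F G F' G' : TT → ℂ} (e : F =ᵐ[mm] F') (e' : G =ᵐ[mm] G') :
    qq S F G = qq S F' G' := by
  refine integral_congr_ae ?_
  filter_upwards [e, h.ae e'] with x h1 h2
  rw [h1, h2]

lemma inner_clm {C : LL →L[ℂ] LL} (hC : ∀ F : LL, (C F : TT → ℂ) =ᵐ[mm] fun x => F (S x))
    (F G : LL) : ⟪F, C G⟫_ℂ = qq S F G := by
  rw [inner_LL]
  refine integral_congr_ae ?_
  filter_upwards [hC G] with x hx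
  rw [hx]

/-- directional bound on a class of functions -/
def Bnd (S : TT → TT) (μ : ℂ) (w : ℝ) (F : TT → ℂ) : Prop := (conj μ * qq S F F).re ≤ w * nn F

lemma IsPre.isClosed_bnd (h : IsPre S) (μ : ℂ) (w : ℝ) : IsClosed {G : LL | Bnd S μ w G} := by
  obtain ⟨C, hC⟩ := h.exists_clm
  have : {G : LL | Bnd S μ w G} = {G : LL | (conj μ * ⟪G, C G⟫_ℂ).re ≤ w * ‖G‖ ^ 2} := by
    ext G
    simp only [Set.mem_ofPred_eq, Bnd, inner_clm hC, normsq_LL, nn]
  rw [this]
  exact isClosed_le (by fun_prop) (by fun_prop)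

lemma IsPre.bnd_congr (h : IsPre S) {μ : ℂ} {w : ℝ} {F G : TT → ℂ} (hF : Bnd S μ w F)
    (e : F =ᵐ[mm] G) : Bnd S μ w G := by
  unfold Bnd at hF ⊢
  rwa [← h.qq_congr e e, ← nn_congr e]

/-- the boundary map of an inner function -/
structure IsSys (S : TT → TT) : Prop extends IsPre S where
  presH : ∀ F, IsH F → IsH fun x => F (S x)

/-- Herglotz transform of an invariant function -/
lemma IsSys.herglotz (h : IsSys S) {g : TT → ℝ} (hg : MemLp (fun x => (g x : ℂ)) 2 mm)
    (hi : ∀ᵐ x ∂mm, g (S x) = g x) :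
    ∃ (L : TT → ℂ) (k : ℝ), IsH L ∧ (∀ᵐ x ∂mm, (L x).re = g x) ∧
      ∀ᵐ x ∂mm, L (S x) = L x + I * k := by
  obtain ⟨L, hL, hre, -⟩ := exists_herglotz hg
  obtain ⟨k, hk⟩ := ((h.presH L hL).sub hL).const_of_re (by
    filter_upwards [hre, h.ae hre, hi] with x h1 h2 h3
    rw [sub_re, h1, h2, h3, sub_self])
  refine ⟨L, k, hL, hre, ?_⟩
  filter_upwards [hk] with x hx
  rw [← hx]; ring

lemma exists_seq_period (k : ℝ) :
    ∃ t : ℕ → ℝ, Tendsto t atTop atTop ∧ (∀ j, 0 ≤ t j) ∧ ∀ j, exp (t j * (I * k)) = 1 := by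
  by_cases hk : k = 0
  · exact ⟨fun j => j, tendsto_natCast_atTop_atTop, fun j => by positivity, fun j => by simp [hk]⟩
  · have hp : 0 < 2 * Real.pi / |k| := div_pos Real.two_pi_pos (abs_pos.2 hk)
    refine ⟨fun j => j * (2 * Real.pi / |k|), tendsto_natCast_atTop_atTop.atTop_mul_const hp,
      fun j => by positivity, fun j => ?_⟩
    have hk' : (k : ℂ) ≠ 0 := by exact_mod_cast hk
    rcases lt_or_gt_of_ne hk with h | h
    · rw [abs_of_neg h, ← exp_int_mul_two_pi_mul_I (-j)]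
      congr 1; push_cast; field_simp
    · rw [abs_of_pos h, ← exp_int_mul_two_pi_mul_I j]
      congr 1; push_cast; field_simp

lemma IsSys.bnd_indicator (h : IsSys S) {B : Set TT} (hB : MeasurableSet B)
    (hi : ∀ᵐ x ∂mm, S x ∈ B ↔ x ∈ B) {μ : ℂ} {w : ℝ} (hb : ∀ F, IsH F → Bnd S μ w F)
    {f : TT → ℂ} (hf : IsH f) : Bnd S μ w (B.indicator f) := by
  let g : TT → ℝ := Bᶜ.indicator fun _ => -1
  have hgm : AEStronglyMeasurable g mm := aestronglyMeasurable_const.indicator hB.compl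
  have hg0 : ∀ x, g x ≤ 0 := fun x => by by_cases hx : x ∈ B <;> simp [g, hx]
  obtain ⟨L, k, hL, hre, hk⟩ := h.herglotz (g := g)
    (memLp_bdd (continuous_ofReal.comp_aestronglyMeasurable hgm) (K := 1)
      (Eventually.of_forall fun x => by by_cases hx : x ∈ B <;> simp [g, hx])) (by
      filter_upwards [hi] with x hx
      by_cases hx' : x ∈ B
      · simp [g, hx', hx.2 hx']
      · simp [g, hx', mt hx.1 hx'])
  obtain ⟨t, ht, ht0, ht1⟩ := exists_seq_period k
  have hu : ∀ j, IsH fun x => exp (t j * L x) := fun j =>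
    (exp_isH (hL.const_mul (t j)) (K := 0) (by
      filter_upwards [hre] with x hx
      simp only [re_ofReal_mul, hx]
      exact mul_nonpos_of_nonneg_of_nonpos (ht0 j) (hg0 x))).1
  have hnorm : ∀ j, ∀ᵐ x ∂mm, ‖exp (t j * L x)‖ = Real.exp (t j * g x) := fun j => by
    filter_upwards [hre] with x hx
    rw [norm_exp, re_ofReal_mul, hx]
  have hle : ∀ j x, Real.exp (t j * g x) ≤ 1 := fun j x =>
    Real.exp_le_one_iff.2 (mul_nonpos_of_nonneg_of_nonpos (ht0 j) (hg0 x))
  have hlim : ∀ x, Tendsto (fun j => Real.exp (t j * g x) ^ 2) atTop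
      (𝓝 (B.indicator (fun _ => 1) x)) := by
    intro x
    by_cases hx : x ∈ B
    · simp [g, hx]
    · have := (Real.tendsto_exp_atBot.comp (tendsto_neg_atTop_atBot.comp ht)).pow 2
      simpa [g, hx] using this
  have hm : ∀ j, AEStronglyMeasurable (fun x => Real.exp (t j * g x) ^ 2) mm := fun j =>
    (Real.continuous_exp.comp_aestronglyMeasurable (hgm.const_mul _)).pow 2
  have i1 := integrable_mul2 (memLp_conj hf.1) (h.memLp hf.1)
  have i2 := integrable_normsq hf.1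
  have e1 : ∀ j, qq S (fun x => exp (t j * L x) * f x) (fun x => exp (t j * L x) * f x) =
      ∫ x, ((Real.exp (t j * g x) ^ 2 : ℝ) : ℂ) * (conj (f x) * f (S x)) ∂mm := by
    intro j
    refine integral_congr_ae ?_
    filter_upwards [hk, hnorm j] with x h1 h2
    rw [h1, mul_add, exp_add, ht1, mul_one, ← h2, map_mul, ← normSq_eq_norm_sq, ← mul_conj]
    ring
  have e2 : ∀ j, nn (fun x => exp (t j * L x) * f x) =
      ∫ x, Real.exp (t j * g x) ^ 2 * ‖f x‖ ^ 2 ∂mm := by
    intro j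
    refine integral_congr_ae ?_
    filter_upwards [hnorm j] with x h2
    rw [norm_mul, mul_pow, h2]
  have l1 : Tendsto (fun j => ∫ x, ((Real.exp (t j * g x) ^ 2 : ℝ) : ℂ) *
      (conj (f x) * f (S x)) ∂mm) atTop (𝓝 (qq S (B.indicator f) (B.indicator f))) := by
    refine tendsto_integral_of_dominated_convergence _
      (fun j => (continuous_ofReal.comp_aestronglyMeasurable (hm j)).mul i1.1) i1.norm
      (fun j => Eventually.of_forall fun x => ?_) ?_
    · rw [norm_mul, norm_real, Real.norm_eq_abs, abs_of_nonneg (by positivity)]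
      exact mul_le_of_le_one_left (norm_nonneg _) (pow_le_one₀ (Real.exp_pos _).le (hle j x))
    · filter_upwards [hi] with x hx
      have := ((continuous_ofReal.tendsto _).comp (hlim x)).mul_const (conj (f x) * f (S x))
      refine this.trans (le_of_eq ?_)
      by_cases hx' : x ∈ B
      · simp [hx', hx.2 hx']
      · simp [hx']
  have l2 : Tendsto (fun j => ∫ x, Real.exp (t j * g x) ^ 2 * ‖f x‖ ^ 2 ∂mm) atTop
      (𝓝 (nn (B.indicator f))) := by
    refine tendsto_integral_of_dominated_convergence _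
      (fun j => (hm j).mul i2.1) i2 (fun j => Eventually.of_forall fun x => ?_) ?_
    · rw [Real.norm_eq_abs, abs_of_nonneg (by positivity)]
      exact mul_le_of_le_one_left (by positivity) (pow_le_one₀ (Real.exp_pos _).le (hle j x))
    · refine Eventually.of_forall fun x => ?_
      refine ((hlim x).mul_const (‖f x‖ ^ 2)).trans (le_of_eq ?_)
      by_cases hx' : x ∈ B <;> simp [hx']
  refine le_of_tendsto_of_tendsto' ((continuous_re.tendsto _).comp (l1.const_mul (conj μ)))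
    (l2.const_mul w) fun j => ?_
  have := hb _ ((hu j).mul (K := 1) (by
    filter_upwards [hnorm j] with x hx
    rw [hx]; exact hle j x) hf)
  unfold Bnd at this
  rw [e1, e2] at this
  exact this


lemma IsSys.bnd_indicator' (h : IsSys S) {B : Set TT} (hB : MeasurableSet B) (hB0 : mm Bᶜ ≠ 0)
    (hi : ∀ᵐ x ∂mm, S x ∈ B ↔ x ∈ B) {μ : ℂ} {w : ℝ} (hb : ∀ F, IsH F → Bnd S μ w F)
    {F : TT → ℂ} (hF : MemLp F 2 mm) : Bnd S μ w (B.indicator F) := by
  let P : (TT → ℂ) → Prop := fun G => ∃ f, IsH f ∧ B.indicator f =ᵐ[mm] G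
  have hP : IsLin P := by
    refine ⟨?_, ⟨fun _ => 0, isH_const 0, by simp⟩, ?_, ?_, ?_⟩
    · rintro F G ⟨f, hf, e⟩ e'
      exact ⟨f, hf, e.trans e'⟩
    · rintro F G ⟨f, hf, e⟩ ⟨g, hg, e'⟩
      refine ⟨_, hf.add hg, ?_⟩
      filter_upwards [e, e'] with x h1 h2
      rw [← h1, ← h2]
      by_cases hx : x ∈ B <;> simp [hx]
    · rintro c F ⟨f, hf, e⟩
      refine ⟨_, hf.const_mul c, ?_⟩
      filter_upwards [e] with x h1
      rw [← h1]
      by_cases hx : x ∈ B <;> simp [hx]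
    · rintro F ⟨f, hf, e⟩
      exact (memLp_congr_ae e).1 (hf.1.indicator hB)
  have h0 : MemLp (B.indicator F) 2 mm := hF.indicator hB
  have hcl := hP.approx h0 fun y hy ho => by
    have hy' : MemLp (fun x => conj (B.indicator y x)) 2 mm := memLp_conj (hy.indicator hB)
    have hH : IsH0 fun x => conj (B.indicator y x) := ⟨hy', fun j => by
      have hj : IsH fun x => ee x ^ j := dc_isH (g := fun z => z ^ j)
        (Differentiable.diffContOnCl (by fun_prop))
      have h1 := ho _ ⟨_, hj, EventuallyEq.rfl⟩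
      have h2 := congrArg conj h1
      rw [← integral_conj, map_zero] at h2
      refine Eq.trans ?_ h2
      refine integral_congr_ae (Eventually.of_forall fun x => ?_)
      by_cases hx : x ∈ B <;> simp [hx]⟩
    have hz := hH.isH.zero_of_zero_on hB.compl hB0
      (Eventually.of_forall fun x hx => by simp [Set.indicator_of_notMem hx])
    rw [← integral_zero TT ℂ (μ := mm)]
    refine integral_congr_ae ?_
    filter_upwards [hz] with x hx
    by_cases hx' : x ∈ B
    · rw [Set.indicator_of_mem hx'] at hx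
      simp [hx]
    · simp [hx']
  have hsub : (hP.sub : Set LL) ⊆ {G : LL | Bnd S μ w G} := by
    rintro G ⟨f, hf, e⟩
    exact h.bnd_congr (h.bnd_indicator hB hi hb hf) e
  exact h.bnd_congr (closure_minimal hsub (h.isClosed_bnd μ w) hcl) h0.coeFn_toLp

/-- the directional bound passes from `H²` to `L²` -/
lemma IsSys.bnd_L2 (h : IsSys S) {B : Set TT} (hB : MeasurableSet B) (hB0 : mm B ≠ 0)
    (hB1 : mm Bᶜ ≠ 0) (hi : ∀ᵐ x ∂mm, S x ∈ B ↔ x ∈ B) {μ : ℂ} {w : ℝ}
    (hb : ∀ F, IsH F → Bnd S μ w F) {F : TT → ℂ} (hF : MemLp F 2 mm) : Bnd S μ w F := by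
  have h1 := h.bnd_indicator' hB hB1 hi hb hF
  have h2 := h.bnd_indicator' hB.compl (by simpa using hB0)
    (by filter_upwards [hi] with x hx; simp [hx]) hb hF
  have m1 : MemLp (B.indicator F) 2 mm := hF.indicator hB
  have m2 : MemLp (Bᶜ.indicator F) 2 mm := hF.indicator hB.compl
  have e1 : qq S F F = qq S (B.indicator F) (B.indicator F) +
      qq S (Bᶜ.indicator F) (Bᶜ.indicator F) := by
    unfold qq
    rw [← integral_add (integrable_mul2 (memLp_conj m1) (h.memLp m1))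
      (integrable_mul2 (memLp_conj m2) (h.memLp m2))]
    refine integral_congr_ae ?_
    filter_upwards [hi] with x hx
    by_cases hx' : x ∈ B
    · simp [hx', hx.2 hx']
    · simp [hx', mt hx.1 hx']
  have e2 : nn F = nn (B.indicator F) + nn (Bᶜ.indicator F) := by
    unfold nn
    rw [← integral_add (integrable_normsq m1) (integrable_normsq m2)]
    refine integral_congr_ae (Eventually.of_forall fun x => ?_)
    by_cases hx' : x ∈ B <;> simp [hx']
  unfold Bnd at h1 h2 ⊢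
  rw [e1, e2, mul_add, add_re, mul_add]
  exact add_le_add h1 h2

/-- the hyperbolic datum: an analytic function with bounded real part and an imaginary period -/
structure IsHyp (S : TT → TT) (L : TT → ℂ) (k K : ℝ) : Prop where
  isH : IsH L
  bdd : ∀ᵐ x ∂mm, |(L x).re| ≤ K
  per : ∀ᵐ x ∂mm, L (S x) = L x + I * k
  ne : k ≠ 0

variable {L : TT → ℂ} {k K : ℝ}

lemma IsHyp.re_inv (hL : IsHyp S L k K) : ∀ᵐ x ∂mm, (L (S x)).re = (L x).re := by
  filter_upwards [hL.per] with x hx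
  simp [hx]

lemma IsHyp.not_const (h : IsPre S) (hL : IsHyp S L k K) (c : ℝ) :
    ¬ ∀ᵐ x ∂mm, (L x).re = c := by
  intro hc
  obtain ⟨t, ht⟩ := (hL.isH.sub (isH_const (c : ℂ))).const_of_re (by
    filter_upwards [hc] with x hx
    simp [hx])
  obtain ⟨x, h1, h2, h3⟩ := (ht.and ((h.ae ht).and hL.per)).exists
  apply hL.ne
  have : I * (k : ℂ) = 0 := by linear_combination h2 - h1 - h3
  simpa using this

lemma IsHyp.exists_set (h : IsPre S) (hL : IsHyp S L k K) :
    ∃ B : Set TT, MeasurableSet B ∧ mm B ≠ 0 ∧ mm Bᶜ ≠ 0 ∧ ∀ᵐ x ∂mm, S x ∈ B ↔ x ∈ B := by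
  have hm : AEMeasurable (fun x => (L x).re) mm :=
    continuous_re.measurable.comp_aemeasurable hL.isH.1.1.aemeasurable
  set g := hm.mk _ with hg
  have hi : Integrable (fun x => (L x).re) mm := (integrable_of_memLp hL.isH.1).re
  set c := ∫ x, (L x).re ∂mm with hc
  have h0 : ∫ x, ((L x).re - c) ∂mm = 0 := by
    rw [integral_sub hi (integrable_const _)]; simp [hc]
  refine ⟨g ⁻¹' Set.Ioi c, hm.measurable_mk measurableSet_Ioi, fun h1 => ?_, fun h1 => ?_, ?_⟩
  · apply hL.not_const h c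
    have h2 : ∀ᵐ x ∂mm, 0 ≤ c - (L x).re := by
      filter_upwards [measure_eq_zero_iff_ae_notMem.1 h1, hm.ae_eq_mk] with x h2 h3
      simp only [Set.mem_preimage, Set.mem_Ioi, not_lt] at h2
      rw [h3]; exact sub_nonneg.2 h2
    have h3 := (integral_eq_zero_iff_of_nonneg_ae h2 ((integrable_const c).sub hi)).1 (by
      rw [integral_sub (integrable_const _) hi]; simp [hc])
    filter_upwards [h3] with x hx
    exact (sub_eq_zero.1 hx).symm
  · apply hL.not_const h c
    have h2 : ∀ᵐ x ∂mm, 0 ≤ (L x).re - c := by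
      filter_upwards [measure_eq_zero_iff_ae_notMem.1 h1, hm.ae_eq_mk] with x h2 h3
      simp only [Set.mem_compl_iff, Set.mem_preimage, Set.mem_Ioi, not_not] at h2
      rw [h3]; exact sub_nonneg.2 h2.le
    have h3 := (integral_eq_zero_iff_of_nonneg_ae h2 (hi.sub (integrable_const c))).1 h0
    filter_upwards [h3] with x hx
    exact sub_eq_zero.1 hx
  · filter_upwards [hm.ae_eq_mk, h.ae hm.ae_eq_mk, hL.re_inv] with x h1 h2 h3
    simp only [Set.mem_preimage, Set.mem_Ioi]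
    rw [hg, ← h1, ← h2, h3]

/-- a bound in one direction on `H²` gives the bound in all directions on `L²` -/
lemma IsHyp.norm_le (h : IsSys S) (hL : IsHyp S L k K) {μ : ℂ} (hμ : ‖μ‖ = 1) {w : ℝ}
    (hb : ∀ F, IsH F → Bnd S μ w F) {F : TT → ℂ} (hF : MemLp F 2 mm) :
    ‖qq S F F‖ ≤ w * nn F := by
  obtain ⟨B, hB, h0, h1, hi⟩ := hL.exists_set h.toIsPre
  set a := conj μ * qq S F F with ha
  let t : ℝ := -arg a / k
  let s : TT → ℂ := fun x => exp (I * (t * (L x).im : ℝ))
  have hs1 : ∀ x, ‖s x‖ = 1 := fun x => by simp only [s]; rw [mul_comm, norm_exp_ofReal_mul_I]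
  have hsm : AEStronglyMeasurable s mm := by
    have := hL.isH.1.1
    exact (by fun_prop : Continuous fun z : ℂ => exp (I * (t * z.im : ℝ))).comp_aestronglyMeasurable
      this
  have hG : MemLp (fun x => s x * F x) 2 mm :=
    memLp_bdd_mul hsm (K := 1) (Eventually.of_forall fun x => (hs1 x).le) hF
  have hb' := h.bnd_L2 hB h0 h1 hi hb hG
  have e1 : qq S (fun x => s x * F x) (fun x => s x * F x) = exp (-(arg a * I)) * qq S F F := by
    unfold qq
    rw [← integral_const_mul]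
    refine integral_congr_ae ?_
    filter_upwards [hL.per] with x hx
    have e : s (S x) = exp (-(arg a * I)) * s x := by
      simp only [s]
      rw [← exp_add, hx]
      congr 1
      have : (k : ℂ) ≠ 0 := by exact_mod_cast hL.ne
      simp only [t, add_im, mul_im, I_re, I_im, ofReal_re, ofReal_im]
      push_cast
      field_simp
      ring
    have e' : s x * conj (s x) = 1 := by rw [mul_conj, normSq_eq_norm_sq, hs1]; simp
    rw [e, map_mul]
    linear_combination (exp (-(arg a * I)) * conj (F x) * F (S x)) * e'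
  have e2 : nn (fun x => s x * F x) = nn F := by
    refine integral_congr_ae (Eventually.of_forall fun x => ?_)
    simp only [norm_mul, hs1, one_mul]
  unfold Bnd at hb'
  rw [e1, e2, mul_left_comm, ← ha] at hb'
  have e3 : exp (-(arg a * I)) * a = ‖a‖ := by
    have e4 := norm_mul_exp_arg_mul_I a
    have e5 : exp (-(arg a * I)) * exp (arg a * I) = 1 := by rw [← exp_add]; simp
    linear_combination (-exp (-(arg a * I))) * e4 + (‖a‖ : ℂ) * e5
  rw [e3, ofReal_re, ha, norm_mul, norm_conj, hμ, one_mul] at hb'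
  exact hb'

end Pool.Agent.Work.MP_f96e05_an
end

-- merged part: Pool.Agent.Work.MP_f96e05_an.Comp
section
set_option autoImplicit false
set_option maxHeartbeats 400000

open MeasureTheory Filter Topology Complex Metric
open scoped ComplexConjugate InnerProductSpace NNReal ENNReal

namespace Pool.Agent.Work.MP_f96e05_an

lemma ae_of_real {p : ℂ → Prop} (h : ∀ᵐ t : ℝ, p (exp (t * I))) : ∀ᵐ x ∂mm, p (ee x) := by
  have mp := (measurePreserving_subtype_coe (μa := volume)
    (measurableSet_Ioc (a := (0 : ℝ)) (b := 0 + tau))).comp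
    (AddCircle.measurePreserving_equivIoc tau (a := 0))
  have h1 := mp.quasiMeasurePreserving.ae (ae_restrict_of_ae h)
  have h2 : mm ≪ (volume : Measure TT) := by
    rw [AddCircle.volume_eq_smul_haarAddCircle]
    exact Measure.absolutelyContinuous_smul (by simpa using factTau.out)
  filter_upwards [h2.ae_le h1] with x hx
  rw [← ee_coe] at hx
  simpa using hx

/-- `S` is the boundary map of `φ` -/
structure IsBdry (φ : ℂ → ℂ) (S : TT → TT) : Prop where
  diff : DifferentiableOn ℂ φ (ball 0 1)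
  maps : Set.MapsTo φ (ball 0 1) (ball 0 1)
  meas : Measurable S
  lim : ∀ᵐ x ∂mm, Tendsto (fun n => φ (rr n * ee x)) atTop (𝓝 (ee (S x)))

lemma exists_bdry {φ : ℂ → ℂ} (h : IsInnerFn φ) : ∃ S, IsBdry φ S := by
  obtain ⟨hd, hm, hl⟩ := h
  have h1 := ae_of_real (p := fun ζ => ∃ c : ℂ, ‖c‖ = 1 ∧
    Tendsto (fun r : ℝ => φ (r * ζ)) (𝓝[<] 1) (𝓝 c)) hl
  let G0 : TT → ℂ := fun x => limUnder atTop fun n => φ (rr n * ee x)
  have h2 : ∀ᵐ x ∂mm, ‖G0 x‖ = 1 ∧ Tendsto (fun n => φ (rr n * ee x)) atTop (𝓝 (G0 x)) := by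
    filter_upwards [h1] with x ⟨c, hc, ht⟩
    have h3 : Tendsto (fun n => φ (rr n * ee x)) atTop (𝓝 c) := ht.comp rr_tendsto'
    have h4 : G0 x = c := h3.limUnder_eq
    rw [h4]; exact ⟨hc, h3⟩
  have h3 : AEMeasurable G0 mm :=
    (aestronglyMeasurable_of_tendsto_ae atTop
      (fun n => (dc_cont (g := fun z => φ (rr n * z))
        (dilate_dc hd (rr_abs n))).aestronglyMeasurable) (h2.mono fun x hx => hx.2)).aemeasurable
  refine ⟨fun x => ((arg (h3.mk G0 x) : ℝ) : TT), hd, hm,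
    AddCircle.measurable_mk'.comp (measurable_arg.comp h3.measurable_mk), ?_⟩
  filter_upwards [h2, h3.ae_eq_mk] with x hx e
  have h4 := norm_mul_exp_arg_mul_I (G0 x)
  rw [hx.1, ofReal_one, one_mul] at h4
  rw [ee_coe, ← e, h4]
  exact hx.2

variable {φ : ℂ → ℂ} {S : TT → TT}

lemma IsBdry.norm_lt (h : IsBdry φ S) {z : ℂ} (hz : ‖z‖ < 1) : ‖φ z‖ < 1 := by
  simpa using h.maps (by simpa using hz : z ∈ ball (0 : ℂ) 1)

lemma IsBdry.pow (h : IsBdry φ S) (j : ℕ) : IsH (fun x => ee (S x) ^ j) ∧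
    ∀ z : ℂ, ‖z‖ < 1 → ev (fun x => ee (S x) ^ j) z = φ z ^ j :=
  bdd_boundary (g := fun z => φ z ^ j) (h.diff.pow j) (K := 1) (fun z hz => by
    rw [norm_pow]; exact pow_le_one₀ (norm_nonneg _) (h.norm_lt (by simpa using hz)).le)
    (h.lim.mono fun x hx => hx.pow j)

lemma exists_clm_pair {G : TT → ℂ} (hG : Integrable G mm) {θ : TT → TT}
    (hθ : AEMeasurable θ mm) :
    ∃ l : C(TT, ℂ) →L[ℂ] ℂ, ∀ c, l c = ∫ x, c (θ x) * G x ∂mm := by
  have hint : ∀ c : C(TT, ℂ), Integrable (fun x => c (θ x) * G x) mm := fun c =>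
    hG.bdd_mul (c := ‖c‖) (c.continuous.measurable.comp_aemeasurable hθ).aestronglyMeasurable
      (Eventually.of_forall fun x => c.norm_coe_le_norm _)
  let l0 : C(TT, ℂ) →ₗ[ℂ] ℂ :=
    { toFun := fun c => ∫ x, c (θ x) * G x ∂mm
      map_add' := fun c d => by
        simp only [ContinuousMap.add_apply, add_mul]
        exact integral_add (hint c) (hint d)
      map_smul' := fun a c => by
        simp only [ContinuousMap.smul_apply, smul_eq_mul, RingHom.id_apply, mul_assoc]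
        exact integral_const_mul _ _ }
  refine ⟨l0.mkContinuous (∫ x, ‖G x‖ ∂mm) (fun c => ?_), fun c => rfl⟩
  refine (norm_integral_le_integral_norm _).trans ?_
  rw [mul_comm _ ‖c‖, ← integral_const_mul]
  refine integral_mono (hint c).norm (hG.norm.const_mul _) fun x => ?_
  simp only [norm_mul]
  exact mul_le_mul_of_nonneg_right (c.norm_coe_le_norm _) (norm_nonneg _)

lemma isH_ee_pow (j : ℕ) : IsH fun x => ee x ^ j :=
  dc_isH (g := fun z => z ^ j) (Differentiable.diffContOnCl (by fun_prop))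

lemma IsBdry.integral_comp (h : IsBdry φ S) (c : C(TT, ℂ)) :
    ∫ x, c (S x) ∂mm = ∫ x, c x * pk (φ 0) x ∂mm := by
  have ha := h.norm_lt (z := 0) (by simp)
  obtain ⟨l1, h1⟩ := exists_clm_pair (integrable_const (1 : ℂ)) h.meas.aemeasurable
  obtain ⟨l2, h2⟩ := exists_clm_pair (integrable_of_memLp
    (memLp_cont (continuous_ofReal.comp (pk_cont ha)))) aemeasurable_id
  have nat : ∀ j : ℕ, ∫ x, ee (S x) ^ j ∂mm = ∫ x, ee x ^ j * pk (φ 0) x ∂mm := fun j => by
    rw [← ev_zero, (h.pow j).2 0 (by simp)]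
    simp_rw [mul_comm (ee _ ^ j)]
    rw [integral_pk_mul (isH_ee_pow j) ha]
    exact (dc_ev (g := fun z => z ^ j) (Differentiable.diffContOnCl (by fun_prop)) ha).symm
  have := clm_eq_zero (l1 - l2) (fun j => by
    rw [sub_apply, h1, h2, sub_eq_zero]
    simp only [mul_one, id, Function.comp_apply]
    rcases le_or_gt 0 j with hj | hj
    · obtain ⟨m, rfl⟩ := Int.eq_ofNat_of_zero_le hj
      simpa only [fourier_nat] using nat m
    · obtain ⟨m, rfl⟩ : ∃ m : ℕ, j = -(m : ℤ) := ⟨(-j).toNat, by omega⟩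
      have := congrArg conj (nat m)
      rw [← integral_conj, ← integral_conj] at this
      simpa only [fourier_neg, fourier_nat, map_mul, conj_ofReal] using this) c
  rw [sub_apply, h1, h2, sub_eq_zero] at this
  simpa using this

lemma IsBdry.map_eq (h : IsBdry φ S) :
    Measure.map S mm = mm.withDensity fun x => ENNReal.ofReal (pk (φ 0) x) := by
  have ha := h.norm_lt (z := 0) (by simp)
  have hi : Integrable (pk (φ 0)) mm := (pk_cont ha).integrable_of_hasCompactSupport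
    (HasCompactSupport.of_compactSpace _)
  have : IsFiniteMeasure (mm.withDensity fun x => ENNReal.ofReal (pk (φ 0) x)) :=
    isFiniteMeasure_withDensity_ofReal hi.2
  refine ext_of_forall_integral_eq_of_IsFiniteMeasure fun c => ?_
  rw [integral_map h.meas.aemeasurable c.continuous.aestronglyMeasurable,
    integral_withDensity_eq_integral_toReal_smul₀ hi.1.aemeasurable.ennreal_ofReal (by simp)]
  have h1 := h.integral_comp ⟨fun x => (c x : ℂ), continuous_ofReal.comp c.continuous⟩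
  simp only [ContinuousMap.coe_mk, ← ofReal_mul] at h1
  rw [integral_complex_ofReal, integral_complex_ofReal] at h1
  rw [ofReal_inj.1 h1]
  refine integral_congr_ae (Eventually.of_forall fun x => ?_)
  simp only [ENNReal.toReal_ofReal (pk_nonneg ha x), smul_eq_mul, mul_comm]

lemma IsBdry.isPre (h : IsBdry φ S) : IsPre S := by
  have ha := h.norm_lt (z := 0) (by simp)
  refine ⟨h.meas, (1 / (1 - ‖φ 0‖) ^ 2).toNNReal, ?_⟩
  rw [h.map_eq, ← withDensity_const]
  exact withDensity_mono (Eventually.of_forall fun x => ENNReal.ofReal_le_ofReal (pk_le ha x))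

lemma IsPre.hasSum_comp (h : IsPre S) {u F : TT → ℂ} (hu : MemLp u 2 mm) (hF : MemLp F 2 mm) :
    HasSum (fun j : ℤ => fourierCoeff F j * ∫ x, u x * fourier j (S x) ∂mm)
      (∫ x, u x * F (S x) ∂mm) := by
  obtain ⟨C, hC⟩ := h.exists_clm
  let l : LL →L[ℂ] ℂ := (innerSL ℂ ((memLp_conj hu).toLp _)).comp C
  have hl : ∀ (G : LL) (g : TT → ℂ), G =ᵐ[mm] g → l G = ∫ x, u x * g (S x) ∂mm := by
    intro G g e
    simp only [l, ContinuousLinearMap.comp_apply, innerSL_apply_apply]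
    rw [inner_clm hC, h.qq_congr (memLp_conj hu).coeFn_toLp e, qq]
    simp
  have h1 := l.hasSum (hasSum_fourier_series_L2 (hF.toLp F))
  rw [hl _ F hF.coeFn_toLp, fourierCoeff_congr_ae hF.coeFn_toLp] at h1
  have e : ∀ j : ℤ, l (fourierCoeff F j • fourierLp 2 j) =
      fourierCoeff F j * ∫ x, u x * fourier j (S x) ∂mm := fun j => by
    rw [map_smul, hl _ _ (coeFn_fourierLp 2 j), smul_eq_mul]
  simp_rw [e] at h1
  exact h1

lemma hasSum_nat_of_int {E : Type*} [AddCommMonoid E] [TopologicalSpace E] {f : ℤ → E} {a : E}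
    (h0 : ∀ j < 0, f j = 0) : HasSum (fun n : ℕ => f n) a ↔ HasSum f a :=
  Nat.cast_injective.hasSum_iff fun j hj => h0 j (by
    by_contra h
    exact hj ⟨j.toNat, by simp; omega⟩)

lemma IsBdry.isSys (h : IsBdry φ S) : IsSys S := by
  refine ⟨h.isPre, fun F hF => ⟨h.isPre.memLp hF.1, fun l => ?_⟩⟩
  have h1 := h.isPre.hasSum_comp (memLp_ee_pow (l + 1)) hF.1
  have e : (fun j : ℤ => fourierCoeff F j * ∫ x, ee x ^ (l + 1) * fourier j (S x) ∂mm) =
      fun _ => 0 := by
    funext j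
    rcases lt_or_ge j 0 with hj | hj
    · rw [hF.coeff hj, zero_mul]
    · obtain ⟨m, rfl⟩ := Int.eq_ofNat_of_zero_le hj
      simp only [fourier_nat]
      rw [(h.pow m).1.2, mul_zero]
  rw [e] at h1
  exact h1.unique hasSum_zero

lemma IsBdry.ev_comp (h : IsBdry φ S) {F : TT → ℂ} (hF : IsH F) {z : ℂ} (hz : ‖z‖ < 1) :
    ev (fun x => F (S x)) z = ev F (φ z) := by
  have h1 := h.isPre.hasSum_comp (memLp_cont (cau_cont hz)) hF.1
  rw [← hasSum_nat_of_int fun j hj => by rw [hF.coeff hj, zero_mul]] at h1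
  have e : ∀ m : ℕ, ∫ x, cau z x * fourier (m : ℤ) (S x) ∂mm = φ z ^ m := fun m => by
    simp only [fourier_nat]
    exact (h.pow m).2 z hz
  simp_rw [e] at h1
  exact h1.unique (hasSum_ev (integrable_of_memLp hF.1) (h.norm_lt hz))

lemma IsBdry.hasSum_num (h : IsBdry φ S) {F : TT → ℂ} (hF : IsH F) {f : ℂ → ℂ}
    (hf : ∀ z : ℂ, ‖z‖ < 1 → f z = ev F z) :
    HasSum (fun n => ‖taylor f n‖ ^ 2) (nn F) ∧
      HasSum (fun n => taylor (f ∘ φ) n * conj (taylor f n)) (qq S F F) := by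
  have hFS := h.isSys.presH F hF
  have t1 := (ev_taylor (integrable_of_memLp hF.1) hf).2
  have t2 := (ev_taylor (integrable_of_memLp hFS.1) (f := f ∘ φ) fun z hz => by
    rw [h.ev_comp hF hz, Function.comp_apply, hf _ (h.norm_lt hz)]).2
  simp_rw [t1, t2]
  constructor
  · exact (hasSum_nat_of_int (f := fun j => ‖fourierCoeff F j‖ ^ 2)
      fun j hj => by simp [hF.coeff hj]).2 (hasSum_normsq hF.1)
  · simp_rw [mul_comm _ (conj _)]
    exact (hasSum_nat_of_int
      (f := fun j => conj (fourierCoeff F j) * fourierCoeff (fun x => F (S x)) j)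
      fun j hj => by simp [hF.coeff hj]).2 (hasSum_parseval hF.1 hFS.1)

lemma exists_isH_of_summable {a : ℕ → ℂ} (ha : Summable fun n => ‖a n‖ ^ 2) :
    ∃ F, IsH F ∧ ∀ n : ℕ, fourierCoeff F n = a n := by
  let b : ℤ → ℂ := fun j => if j < 0 then 0 else a j.toNat
  have hb : ∀ n : ℕ, b n = a n := fun n => by simp [b]
  have hs : Summable fun j => ‖b j‖ ^ 2 := by
    obtain ⟨s, hs⟩ := ha
    refine ⟨s, (hasSum_nat_of_int fun j hj => by simp [b, hj]).1 ?_⟩
    simpa only [hb] using hs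
  have hm : Memℓp b 2 := memℓp_gen (by simpa using hs)
  let F : LL := fourierBasis.repr.symm ⟨b, hm⟩
  have hF : ∀ j, fourierCoeff F j = b j := fun j => by
    rw [← fourierBasis_repr]; simp [F]
  refine ⟨F, ⟨Lp.memLp F, fun j => ?_⟩, fun n => by rw [hF, hb]⟩
  rw [← coeff_neg, hF]
  simp only [b]
  rw [if_pos (by omega)]

lemma IsBdry.mem_numRange (h : IsBdry φ S) (c : ℂ) :
    c ∈ numRange φ ↔ ∃ F, IsH F ∧ nn F = 1 ∧ qq S F F = c := by
  constructor
  · rintro ⟨f, hd, h1, h2⟩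
    obtain ⟨F, hF, hc⟩ := exists_isH_of_summable h1.summable
    have hf : ∀ z : ℂ, ‖z‖ < 1 → f z = ev F z := fun z hz => by
      refine (hasSum_taylorSeries_on_ball hd (by simpa using hz)).unique ?_
      have := hasSum_ev (integrable_of_memLp hF.1) hz
      simp_rw [hc] at this
      have e : ∀ n : ℕ, (n.factorial : ℂ)⁻¹ • (z - 0) ^ n • iteratedDeriv n f 0 =
          taylor f n * z ^ n := fun n => by simp [taylor]; ring
      simp_rw [e]
      exact this
    obtain ⟨h3, h4⟩ := h.hasSum_num hF hf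
    exact ⟨F, hF, h3.unique h1, h4.unique h2⟩
  · rintro ⟨F, hF, h1, rfl⟩
    obtain ⟨h3, h4⟩ := h.hasSum_num hF (f := ev F) fun _ _ => rfl
    exact ⟨ev F, ev_diff (integrable_of_memLp hF.1), h1 ▸ h3, h4⟩

end Pool.Agent.Work.MP_f96e05_an
end

-- merged part: Pool.Agent.Work.MP_f96e05_an.Disc
section
set_option autoImplicit false
set_option maxHeartbeats 400000

open MeasureTheory Filter Topology Complex Metric
open scoped ComplexConjugate InnerProductSpace NNReal ENNReal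

namespace Pool.Agent.Work.MP_f96e05_an

lemma toeplitz_hausdorff {H : Type*} [NormedAddCommGroup H] [InnerProductSpace ℂ H]
    (C : H →L[ℂ] H) (V : Submodule ℂ H) :
    Convex ℝ {c : ℂ | ∃ x ∈ V, ‖x‖ = 1 ∧ ⟪x, C x⟫_ℂ = c} := by
  rintro a ⟨x, hx, hx1, rfl⟩ b ⟨y, hy, hy1, rfl⟩ s t hs ht hst
  set a := ⟪x, C x⟫_ℂ with ha
  set b := ⟪y, C y⟫_ℂ with hb
  by_cases hab : a = b
  · refine ⟨x, hx, hx1, ?_⟩
    rw [← hab, ← add_smul, hst, one_smul]
  have hab' : a - b ≠ 0 := sub_ne_zero.2 hab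
  set p := (⟪x, C y⟫_ℂ - b * ⟪x, y⟫_ℂ) / (a - b) with hp
  set q := (⟪y, C x⟫_ℂ - b * ⟪y, x⟫_ℂ) / (a - b) with hq
  set l : ℂ := exp (-(arg (q - conj p) * I)) with hl
  have hl1 : ‖l‖ = 1 := by
    rw [hl, ← neg_mul, ← ofReal_neg]; exact norm_exp_ofReal_mul_I _
  have hl2 : conj l * l = 1 := by rw [mul_comm, mul_conj, normSq_eq_norm_sq, hl1]; simp
  have hl3 : l * (q - conj p) = ‖q - conj p‖ := by
    have e4 := norm_mul_exp_arg_mul_I (q - conj p)
    have e5 : l * exp (arg (q - conj p) * I) = 1 := by rw [hl, ← exp_add]; simp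
    linear_combination (-l) * e4 + (‖q - conj p‖ : ℂ) * e5
  set r : ℝ := ‖q - conj p‖ + 2 * (conj l * p).re with hr
  have hr' : conj l * p + l * q = r := by
    have := add_conj (conj l * p)
    rw [map_mul, conj_conj] at this
    rw [hr]; push_cast at this ⊢
    linear_combination this + hl3
  let z : ℝ → H := fun u => ((u : ℂ) * l) • x + ((1 - u : ℝ) : ℂ) • y
  have hxx : ⟪x, x⟫_ℂ = 1 := by rw [inner_self_eq_norm_sq_to_K, hx1]; simp
  have hyy : ⟪y, y⟫_ℂ = 1 := by rw [inner_self_eq_norm_sq_to_K, hy1]; simp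
  have hz : ∀ u : ℝ, ⟪z u, C (z u)⟫_ℂ - b * ⟪z u, z u⟫_ℂ =
      (a - b) * ((u ^ 2 + u * (1 - u) * r : ℝ) : ℂ) := by
    intro u
    have e1 : ⟪x, C y⟫_ℂ = p * (a - b) + b * ⟪x, y⟫_ℂ := by rw [hp]; field_simp; ring
    have e2 : ⟪y, C x⟫_ℂ = q * (a - b) + b * ⟪y, x⟫_ℂ := by rw [hq]; field_simp; ring
    simp only [z, map_add, map_smul, inner_add_left, inner_add_right, inner_smul_left,
      inner_smul_right, map_mul, conj_ofReal, ← ha, ← hb, e1, e2, hxx, hyy]
    push_cast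
    linear_combination (a - b) * (u : ℂ) ^ 2 * hl2 + (a - b) * u * (1 - u) * hr'
  have hc : Continuous fun u : ℝ => u ^ 2 + u * (1 - u) * r - s * ‖z u‖ ^ 2 := by
    simp only [z]; fun_prop
  obtain ⟨u, hu, hu0⟩ := intermediate_value_Icc zero_le_one hc.continuousOn
    (show (0 : ℝ) ∈ Set.Icc _ _ from by
      simp [z, norm_smul, hl1, hx1, hy1]; constructor <;> linarith only [hs, ht, hst])
  have hne : z u ≠ 0 := by
    intro h0
    have h1 : ((u : ℂ) * l) • x = -(((1 - u : ℝ) : ℂ) • y) := eq_neg_of_add_eq_zero_left h0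
    have h2 := congrArg norm h1
    rw [norm_neg, norm_smul, norm_smul, norm_mul, hl1, hx1, hy1, norm_real, norm_real,
      Real.norm_eq_abs, Real.norm_eq_abs, abs_of_nonneg hu.1,
      abs_of_nonneg (sub_nonneg.2 hu.2)] at h2
    have h3 : u = 1 / 2 := by linarith only [h2]
    have h4 : y = (-l) • x := by
      have h5 := congrArg (fun v => (-2 : ℂ) • v) h1
      simp only [smul_neg, smul_smul, h3] at h5
      norm_num at h5
      rw [← h5, ← neg_smul]; congr 1; ring
    apply hab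
    rw [hb, h4, map_smul, inner_smul_left, inner_smul_right, map_neg, ← ha]
    linear_combination (-a) * hl2
  have hn : (‖z u‖ : ℂ) ≠ 0 := by exact_mod_cast norm_ne_zero_iff.2 hne
  refine ⟨(‖z u‖ : ℂ)⁻¹ • z u, V.smul_mem _ (V.add_mem (V.smul_mem _ hx) (V.smul_mem _ hy)), ?_, ?_⟩
  · rw [norm_smul, norm_inv, norm_real, norm_norm, inv_mul_cancel₀ (norm_ne_zero_iff.2 hne)]
  · have h1 := hz u
    have h2 : u ^ 2 + u * (1 - u) * r = s * ‖z u‖ ^ 2 := sub_eq_zero.1 hu0
    rw [h2, inner_self_eq_norm_sq_to_K] at h1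
    have h3 : (t : ℂ) = 1 - s := by rw [← ofReal_one, ← hst]; push_cast; ring
    rw [map_smul, inner_smul_left, inner_smul_right, map_inv₀, conj_ofReal, real_smul, real_smul, h3]
    have h4 : ⟪z u, C (z u)⟫_ℂ = (b + (a - b) * s) * (‖z u‖ : ℂ) ^ 2 := by
      push_cast at h1
      simp only [coe_algebraMap] at h1
      linear_combination h1
    rw [h4]; field_simp; ring

lemma exists_sep {W : Set ℂ} (hW : Convex ℝ W) (hne : W.Nonempty) {c : ℂ} (hc : c ∉ W) :
    ∃ μ : ℂ, ‖μ‖ = 1 ∧ ∀ a ∈ W, (conj μ * a).re ≤ (conj μ * c).re := by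
  have key : ∃ f : ℂ →ₗ[ℝ] ℝ, f ≠ 0 ∧ ∀ a ∈ W, f a ≤ f c := by
    by_cases hi : (interior W).Nonempty
    · obtain ⟨f, hf, h⟩ := geometric_hahn_banach_of_nonempty_interior_point hW
        (fun h => hc (interior_subset h)) hi
      exact ⟨f, fun h0 => hf (ContinuousLinearMap.coe_injective h0), h⟩
    · rw [hW.interior_nonempty_iff_affineSpan_eq_top,
        AffineSubspace.affineSpan_eq_top_iff_vectorSpan_eq_top_of_nonempty ℝ ℂ ℂ hne] at hi
      obtain ⟨f, hf, hle⟩ := Submodule.exists_le_ker_of_lt_top _ (lt_top_iff_ne_top.2 hi)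
      obtain ⟨p, hp⟩ := hne
      have h1 : ∀ a ∈ W, f a = f p := fun a ha => by
        have := hle (vsub_mem_vectorSpan ℝ ha hp)
        rwa [LinearMap.mem_ker, vsub_eq_sub, map_sub, sub_eq_zero] at this
      rcases le_total (f p) (f c) with h | h
      · exact ⟨f, hf, fun a ha => (h1 a ha).trans_le h⟩
      · exact ⟨-f, neg_ne_zero.2 hf, fun a ha => by simp [h1 a ha, h]⟩
  obtain ⟨f, hf, h⟩ := key
  set μ : ℂ := f 1 + f I * I with hμ
  have e : ∀ z : ℂ, (conj μ * z).re = f z := fun z => by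
    conv_rhs => rw [← re_add_im z, ← mul_one (z.re : ℂ), ← real_smul, ← real_smul, map_add,
      map_smul, map_smul]
    simp [hμ]; ring
  have h0 : μ ≠ 0 := fun h0 => hf (LinearMap.ext fun z => by rw [← e, h0]; simp)
  have h1 : 0 < ‖μ‖ := norm_pos_iff.2 h0
  refine ⟨((‖μ‖⁻¹ : ℝ) : ℂ) * μ, by simp [h1.ne'], fun a ha => ?_⟩
  rw [map_mul, conj_ofReal, mul_assoc, mul_assoc, re_ofReal_mul, re_ofReal_mul, e, e]
  exact mul_le_mul_of_nonneg_left (h a ha) (by positivity)

lemma isLin_H : IsLin IsH :=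
  ⟨fun h e => h.congr e, isH_const 0, fun h1 h2 => h1.add h2, fun c _ h => h.const_mul c,
    fun h => h.1⟩

variable {S : TT → TT}

/-- the numerical range in terms of boundary functions -/
def WW (S : TT → TT) : Set ℂ := {c | ∃ F, IsH F ∧ nn F = 1 ∧ qq S F F = c}

lemma WW_eq (h : IsPre S) {C : LL →L[ℂ] LL}
    (hC : ∀ F : LL, (C F : TT → ℂ) =ᵐ[mm] fun x => F (S x)) :
    WW S = {c : ℂ | ∃ x ∈ isLin_H.sub, ‖x‖ = 1 ∧ ⟪x, C x⟫_ℂ = c} := by
  ext c
  constructor
  · rintro ⟨F, hF, h1, rfl⟩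
    refine ⟨_, isLin_H.toLp_mem hF, ?_, ?_⟩
    · have := normsq_LL (hF.1.toLp F)
      rw [show ∫ x, ‖hF.1.toLp F x‖ ^ 2 ∂mm = nn F from nn_congr hF.1.coeFn_toLp, h1] at this
      exact (pow_eq_one_iff_of_nonneg (norm_nonneg _) two_ne_zero).1 this
    · rw [inner_clm hC, h.qq_congr hF.1.coeFn_toLp hF.1.coeFn_toLp]
  · rintro ⟨x, hx, h1, rfl⟩
    exact ⟨x, hx, by rw [nn, ← normsq_LL, h1, one_pow], (inner_clm hC x x).symm⟩

lemma one_mem_WW : (1 : ℂ) ∈ WW S := ⟨fun _ => 1, isH_const 1, by simp [nn], by simp [qq]⟩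

lemma WW_bdd (h : IsPre S) : BddAbove (norm '' WW S) := by
  obtain ⟨C, hC⟩ := h.exists_clm
  refine ⟨‖C‖, ?_⟩
  rw [WW_eq h hC]
  rintro _ ⟨_, ⟨x, -, h1, rfl⟩, rfl⟩
  refine (norm_inner_le_norm _ _).trans ?_
  have := C.le_opNorm x
  rw [h1, one_mul]; rwa [h1, mul_one] at this

lemma WW_scale (h : IsPre S) {F : TT → ℂ} (hF : IsH F) :
    ∃ c ∈ WW S, qq S F F = nn F * c := by
  by_cases h0 : nn F = 0
  · have := ae_zero_of_normsq hF.1 h0
    refine ⟨1, one_mem_WW, ?_⟩
    rw [h.qq_congr (F' := fun _ => 0) (G' := F) this EventuallyEq.rfl, h0]; simp [qq]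
  · have hp : 0 < nn F := lt_of_le_of_ne (nn_nonneg F) (Ne.symm h0)
    set t : ℝ := (Real.sqrt (nn F))⁻¹ with ht
    have ht2 : t ^ 2 * nn F = 1 := by
      rw [ht, inv_pow, Real.sq_sqrt hp.le, inv_mul_cancel₀ h0]
    refine ⟨_, ⟨fun x => t * F x, hF.const_mul t, ?_, rfl⟩, ?_⟩
    · simp only [nn, norm_mul, mul_pow, norm_real, Real.norm_eq_abs, sq_abs]
      rw [integral_const_mul]; exact ht2
    · have : qq S (fun x => t * F x) (fun x => t * F x) = (t : ℂ) ^ 2 * qq S F F := by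
        unfold qq
        rw [← integral_const_mul]
        refine integral_congr_ae (Eventually.of_forall fun x => ?_)
        simp only [map_mul, conj_ofReal]; ring
      rw [this, ← mul_assoc, mul_comm (nn F : ℂ)]
      have h3 : (t : ℂ) ^ 2 * nn F = 1 := by exact_mod_cast ht2
      rw [h3, one_mul]

lemma norm_qq_le (h : IsPre S) {F : TT → ℂ} (hF : IsH F) :
    ‖qq S F F‖ ≤ sSup (norm '' WW S) * nn F := by
  obtain ⟨c, hc, e⟩ := WW_scale h hF
  rw [e, norm_mul, norm_real, Real.norm_eq_abs, abs_of_nonneg (nn_nonneg F), mul_comm]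
  exact mul_le_mul_of_nonneg_right (le_csSup (WW_bdd h) ⟨c, hc, rfl⟩) (nn_nonneg F)

/-- the open disc is contained in the numerical range as soon as all directions are equivalent -/
lemma ball_subset_WW (h : IsPre S)
    (hdir : ∀ (μ : ℂ) (w : ℝ), ‖μ‖ = 1 → (∀ F, IsH F → Bnd S μ w F) →
      ∀ F, IsH F → ‖qq S F F‖ ≤ w * nn F) : ball 0 (sSup (norm '' WW S)) ⊆ WW S := by
  intro c hc
  by_contra hn
  obtain ⟨C, hC⟩ := h.exists_clm
  obtain ⟨μ, hμ, hs⟩ := exists_sep (by rw [WW_eq h hC]; exact toeplitz_hausdorff C _)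
    ⟨1, one_mem_WW⟩ hn
  have h1 := hdir μ ‖c‖ hμ fun F hF => by
    obtain ⟨a, ha, e⟩ := WW_scale h hF
    unfold Bnd
    rw [e, mul_left_comm, re_ofReal_mul, mul_comm]
    refine mul_le_mul_of_nonneg_right ((hs a ha).trans ((re_le_norm _).trans ?_)) (nn_nonneg F)
    rw [norm_mul, norm_conj, hμ, one_mul]
  have h2 : sSup (norm '' WW S) ≤ ‖c‖ := by
    refine csSup_le ⟨_, 1, one_mem_WW, rfl⟩ ?_
    rintro _ ⟨_, ⟨F, hF, h2, rfl⟩, rfl⟩
    simpa [h2] using h1 F hF
  exact absurd (mem_ball_zero_iff.1 hc) (not_lt.2 h2)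

lemma not_isClosed_ball {r : ℝ} (hr : 0 < r) : ¬ IsClosed (ball (0 : ℂ) r) := fun h => by
  have h1 : (r : ℂ) ∈ closure (ball (0 : ℂ) r) := by
    rw [closure_ball _ hr.ne']; simp [abs_of_pos hr]
  rw [h.closure_eq] at h1
  simp [abs_of_pos hr] at h1

end Pool.Agent.Work.MP_f96e05_an
end

-- merged part: Pool.Agent.Work.MP_f96e05_an.Julia
section
set_option autoImplicit false
set_option maxHeartbeats 400000

open MeasureTheory Filter Topology Complex Metric
open scoped ComplexConjugate InnerProductSpace NNReal ENNReal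

namespace Pool.Agent.Work.MP_f96e05_an

lemma den_ne {a z : ℂ} (ha : ‖a‖ < 1) (hz : ‖z‖ < 1) : 1 - conj a * z ≠ 0 := by
  intro h
  have h1 : ‖conj a * z‖ = 1 := by rw [← sub_eq_zero.1 h, norm_one]
  rw [norm_mul, norm_conj] at h1
  linarith only [hz, h1, ha, norm_nonneg z, norm_nonneg a, mul_nonneg_of_nonpos_of_nonpos (le_of_lt (Mathlib.Tactic.Linarith.sub_neg_of_lt ha)) (Mathlib.Tactic.Linarith.sub_nonpos_of_le (norm_nonneg z))]

lemma mob_id (a z : ℂ) :
    ‖1 - conj a * z‖ ^ 2 - ‖z - a‖ ^ 2 = (1 - ‖a‖ ^ 2) * (1 - ‖z‖ ^ 2) := by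
  simp only [← normSq_eq_norm_sq, normSq_apply, sub_re, sub_im, mul_re, mul_im, conj_re, conj_im,
    one_re, one_im]
  ring

lemma mob_normsq {a z : ℂ} (ha : ‖a‖ < 1) (hz : ‖z‖ < 1) :
    1 - ‖(z - a) / (1 - conj a * z)‖ ^ 2 =
      (1 - ‖a‖ ^ 2) * (1 - ‖z‖ ^ 2) / ‖1 - conj a * z‖ ^ 2 := by
  have h := norm_ne_zero_iff.2 (den_ne ha hz)
  rw [← mob_id, norm_div, div_pow, sub_div, div_self (pow_ne_zero 2 h)]

lemma mob_lt {a z : ℂ} (ha : ‖a‖ < 1) (hz : ‖z‖ < 1) : ‖(z - a) / (1 - conj a * z)‖ < 1 := by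
  have h := norm_pos_iff.2 (den_ne ha hz)
  have h1 : 0 < 1 - ‖a‖ ^ 2 := by linarith only [ha, norm_nonneg a, mul_nonneg_of_nonpos_of_nonpos (le_of_lt (Mathlib.Tactic.Linarith.sub_neg_of_lt ha)) (Mathlib.Tactic.Linarith.sub_nonpos_of_le (norm_nonneg a))]
  have h2 : 0 < 1 - ‖z‖ ^ 2 := by linarith only [hz, norm_nonneg z, mul_nonneg_of_nonpos_of_nonpos (le_of_lt (Mathlib.Tactic.Linarith.sub_neg_of_lt hz)) (Mathlib.Tactic.Linarith.sub_nonpos_of_le (norm_nonneg z))]
  have h3 : 0 < 1 - ‖(z - a) / (1 - conj a * z)‖ ^ 2 := by rw [mob_normsq ha hz]; positivity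
  (refine lt_of_not_ge fun h_nl => ?_; linarith only [h_nl, h3, norm_nonneg ((z - a) / (1 - conj a * z)), mul_nonneg_of_nonpos_of_nonpos (Mathlib.Tactic.Linarith.sub_nonpos_of_le h_nl) (Mathlib.Tactic.Linarith.sub_nonpos_of_le h_nl)])

lemma schwarz_pick {φ : ℂ → ℂ} (hd : DifferentiableOn ℂ φ (ball 0 1))
    (hm : Set.MapsTo φ (ball 0 1) (ball 0 1)) {z v : ℂ} (hz : ‖z‖ < 1) (hv : ‖v‖ < 1) :
    (1 - ‖v‖ ^ 2) * (1 - ‖z‖ ^ 2) / ‖1 - conj v * z‖ ^ 2 ≤
      (1 - ‖φ v‖ ^ 2) * (1 - ‖φ z‖ ^ 2) / ‖1 - conj (φ v) * φ z‖ ^ 2 := by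
  have hφ : ∀ u : ℂ, ‖u‖ < 1 → ‖φ u‖ < 1 := fun u hu => by
    simpa using hm (by simpa using hu : u ∈ ball (0 : ℂ) 1)
  have hv' : ‖-v‖ < 1 := by simpa using hv
  let N : ℂ → ℂ := fun u => (u - -v) / (1 - conj (-v) * u)
  have hN : Set.MapsTo N (ball 0 1) (ball 0 1) := fun u hu =>
    mem_ball_zero_iff.2 (mob_lt hv' (by simpa using hu))
  have hNd : DifferentiableOn ℂ N (ball 0 1) :=
    DifferentiableOn.div (by fun_prop) (by fun_prop) fun u hu => den_ne hv' (by simpa using hu)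
  have h1 : DifferentiableOn ℂ (fun u => φ (N u)) (ball 0 1) := hd.comp hNd hN
  let g : ℂ → ℂ := fun u => (φ (N u) - φ v) / (1 - conj (φ v) * φ (N u))
  have hg : DifferentiableOn ℂ g (ball 0 1) :=
    DifferentiableOn.div (h1.sub_const _) ((h1.const_mul _).const_sub _) fun u hu =>
      den_ne (hφ v hv) (hφ _ (by simpa using hN hu))
  have hgm : Set.MapsTo g (ball 0 1) (closedBall 0 1) := fun u hu =>
    mem_closedBall_zero_iff.2 (mob_lt (hφ v hv) (hφ _ (by simpa using hN hu))).le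
  have hg0 : g 0 = 0 := by simp [g, N]
  have h2 := norm_le_norm_of_mapsTo_ball hg hgm hg0 (mob_lt hv hz)
  have h3 : N ((z - v) / (1 - conj v * z)) = z := by
    have h4 := den_ne hv hz
    have h5 := den_ne hv' (mob_lt hv hz)
    simp only [N]
    rw [div_eq_iff h5, map_neg]
    generalize conj v = c at h4 ⊢
    have h6 : (1 - c * z) * (1 - c * z)⁻¹ = 1 := mul_inv_cancel₀ h4
    rw [div_eq_mul_inv]
    linear_combination (z - v) * h6
  simp only [g, h3] at h2
  rw [← mob_normsq hv hz, ← mob_normsq (hφ v hv) (hφ z hz)]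
  have := pow_le_pow_left₀ (norm_nonneg _) h2 2
  linarith only [this]

lemma julia {φ : ℂ → ℂ} (hd : DifferentiableOn ℂ φ (ball 0 1))
    (hm : Set.MapsTo φ (ball 0 1) (ball 0 1)) {ω : ℂ} (hω : ‖ω‖ = 1) {α : ℝ}
    (hα : Tendsto (fun r : ℝ => (φ (r * ω) - ω) / (r * ω - ω)) (𝓝[<] 1) (𝓝 α))
    {z : ℂ} (hz : ‖z‖ < 1) :
    (1 - ‖z‖ ^ 2) / ‖1 - conj ω * z‖ ^ 2 ≤ α * ((1 - ‖φ z‖ ^ 2) / ‖1 - conj ω * φ z‖ ^ 2) := by
  have hφz : ‖φ z‖ < 1 := by simpa using hm (by simpa using hz : z ∈ ball (0 : ℂ) 1)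
  have den : ∀ u : ℂ, ‖u‖ < 1 → ‖1 - conj ω * u‖ ^ 2 ≠ 0 := fun u hu => by
    refine pow_ne_zero _ (norm_ne_zero_iff.2 fun h => ?_)
    have h1 : ‖conj ω * u‖ = 1 := by rw [← sub_eq_zero.1 h, norm_one]
    rw [norm_mul, norm_conj, hω] at h1
    linarith
  let q : ℕ → ℂ := fun n => (φ (rr n * ω) - ω) / (rr n * ω - ω)
  have hq : Tendsto q atTop (𝓝 α) := hα.comp rr_tendsto'
  have hr : Tendsto (fun n => (rr n : ℂ)) atTop (𝓝 1) := (continuous_ofReal.tendsto 1).comp rr_tendsto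
  have e : ∀ n, φ (rr n * ω) = ω * (1 - (1 - rr n) * q n) := fun n => by
    have h1 : ω ≠ 0 := by rintro rfl; simp at hω
    have h2 : (rr n : ℂ) - 1 ≠ 0 := sub_ne_zero.2 (by exact_mod_cast (rr_lt n).ne)
    have h3 : (rr n : ℂ) * ω - ω = (rr n - 1) * ω := by ring
    simp only [q]; rw [h3]; field_simp; ring
  have e2 : ∀ n, (1 - ‖φ (rr n * ω)‖ ^ 2) =
      (1 - ‖(rr n : ℂ) * ω‖ ^ 2) * ((2 * (q n).re - (1 - rr n) * ‖q n‖ ^ 2) / (1 + rr n)) := by
    intro n
    have h1 : 1 + rr n ≠ 0 := by linarith [rr_pos n]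
    rw [e, norm_mul, norm_mul, hω, norm_real, Real.norm_eq_abs, one_mul, mul_one, sq_abs]
    simp only [← normSq_eq_norm_sq, normSq_apply, sub_re, sub_im, mul_re, mul_im, ofReal_re,
      ofReal_im, one_re, one_im]
    field_simp; ring
  have l1 : Tendsto (fun n => (2 * (q n).re - (1 - rr n) * ‖q n‖ ^ 2) / (1 + rr n)) atTop
      (𝓝 α) := by
    have := ((((continuous_re.tendsto _).comp hq).const_mul 2).sub
      ((rr_tendsto.const_sub 1).mul (hq.norm.pow 2))).div (rr_tendsto.const_add 1) (by norm_num)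
    simp only [ofReal_re, sub_self, zero_mul, sub_zero] at this
    rw [show 2 * α / (1 + 1) = α by ring] at this
    exact this
  have l2 : Tendsto (fun n => φ (rr n * ω)) atTop (𝓝 ω) := by
    simp_rw [e]
    simpa using (((hr.const_sub 1).mul hq).const_sub 1).const_mul ω
  have l3 : Tendsto (fun n => (rr n : ℂ) * ω) atTop (𝓝 ω) := by simpa using hr.mul_const ω
  have c1 : ∀ u : ℂ, ‖u‖ < 1 → ∀ {s : ℕ → ℂ}, Tendsto s atTop (𝓝 ω) →
      Tendsto (fun n => (1 - ‖u‖ ^ 2) / ‖1 - conj (s n) * u‖ ^ 2) atTop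
        (𝓝 ((1 - ‖u‖ ^ 2) / ‖1 - conj ω * u‖ ^ 2)) := fun u hu s hs =>
    tendsto_const_nhds.div (((((continuous_conj.tendsto _).comp hs).mul_const u).const_sub 1).norm.pow 2)
      (den u hu)
  refine le_of_tendsto_of_tendsto' (c1 z hz l3) (l1.mul (c1 _ hφz l2)) fun n => ?_
  have hv : ‖(rr n : ℂ) * ω‖ < 1 := by simp [hω, rr_abs]
  have h1 := schwarz_pick hd hm hz hv
  have h2 : 0 < 1 - ‖(rr n : ℂ) * ω‖ ^ 2 := by linarith only [hv, norm_nonneg ((rr n : ℂ) * ω), mul_nonneg_of_nonpos_of_nonpos (le_of_lt (Mathlib.Tactic.Linarith.sub_neg_of_lt hv)) (Mathlib.Tactic.Linarith.sub_nonpos_of_le (norm_nonneg (↑(rr n) * ω)))]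
  rw [e2, mul_div_assoc, mul_assoc, mul_div_assoc] at h1
  have h3 := le_of_mul_le_mul_left h1 h2
  rwa [mul_div_assoc] at h3

lemma iterate_bound {φ : ℂ → ℂ} (hd : DifferentiableOn ℂ φ (ball 0 1))
    (hm : Set.MapsTo φ (ball 0 1) (ball 0 1)) {ω : ℂ} (hω : ‖ω‖ = 1) {α : ℝ}
    (hα : Tendsto (fun r : ℝ => (φ (r * ω) - ω) / (r * ω - ω)) (𝓝[<] 1) (𝓝 α)) :
    0 < α ∧ ∀ N : ℕ, ‖φ^[N] 0‖ < 1 ∧ ‖1 - conj ω * φ^[N] 0‖ ^ 2 ≤ α ^ N := by
  have hlt : ∀ N : ℕ, ‖φ^[N] 0‖ < 1 := fun N => by simpa using hm.iterate N (mem_ball_self one_pos)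
  have pos : ∀ u : ℂ, ‖u‖ < 1 → 0 < ‖1 - conj ω * u‖ ^ 2 := fun u hu => by
    refine pow_pos (norm_pos_iff.2 fun h => ?_) _
    have h1 : ‖conj ω * u‖ = 1 := by rw [← sub_eq_zero.1 h, norm_one]
    rw [norm_mul, norm_conj, hω] at h1
    linarith
  have h0 : 0 < α := by
    have h1 := julia hd hm hω hα (z := 0) (by simp)
    have h2 : 0 ≤ (1 - ‖φ 0‖ ^ 2) / ‖1 - conj ω * φ 0‖ ^ 2 :=
      div_nonneg (by nlinarith only [hlt, norm_nonneg (φ 0), show ‖φ 0‖ < 1 from hlt 1]) (by positivity)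
    by_contra h
    have := mul_nonpos_of_nonpos_of_nonneg (not_lt.1 h) h2
    simp at h1
    linarith only [this, h1]
  have ind : ∀ N : ℕ, 1 ≤ α ^ N * ((1 - ‖φ^[N] 0‖ ^ 2) / ‖1 - conj ω * φ^[N] 0‖ ^ 2) := by
    intro N
    induction N with
    | zero => simp
    | succ N ih =>
      rw [Function.iterate_succ_apply', pow_succ, mul_assoc]
      exact ih.trans (mul_le_mul_of_nonneg_left (julia hd hm hω hα (hlt N)) (by positivity))
  refine ⟨h0, fun N => ⟨hlt N, ?_⟩⟩
  have h1 := ind N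
  rw [← mul_div_assoc, le_div_iff₀ (pos _ (hlt N)), one_mul] at h1
  exact h1.trans (mul_le_of_le_one_right (by positivity) (by linarith only [norm_nonneg (φ^[N] 0), sq_nonneg ‖φ^[N] (0 : ℂ)‖]))

lemma exists_limit {H : Type*} [NormedAddCommGroup H] [InnerProductSpace ℂ H] [CompleteSpace H]
    {K : ℕ → Set H} (hne : ∀ N, (K N).Nonempty) (hanti : Antitone K)
    (hmid : ∀ N, ∀ x ∈ K N, ∀ y ∈ K N, (1 / 2 : ℂ) • (x + y) ∈ K N) {B : ℝ}
    (hB : ∀ N, ∀ x ∈ K N, ‖x‖ ^ 2 ≤ B) :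
    ∃ (g : ℕ → H) (G : H), (∀ N, g N ∈ K N) ∧ Tendsto g atTop (𝓝 G) := by
  let d : ℕ → ℝ := fun N => sInf ((fun x => ‖x‖ ^ 2) '' K N)
  have bb : ∀ N, BddBelow ((fun x : H => ‖x‖ ^ 2) '' K N) := fun N =>
    ⟨0, by rintro _ ⟨x, -, rfl⟩; positivity⟩
  have hd : ∀ N, ∀ x ∈ K N, d N ≤ ‖x‖ ^ 2 := fun N x hx => csInf_le (bb N) ⟨x, hx, rfl⟩
  have mono : Monotone d := fun N M h =>
    csInf_le_csInf (bb N) ((hne M).image _) (Set.image_mono (hanti h))
  have dB : ∀ N, d N ≤ B := fun N => by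
    obtain ⟨x, hx⟩ := hne N
    exact (hd N x hx).trans (hB N x hx)
  have bdd : BddAbove (Set.range d) := ⟨B, by rintro _ ⟨N, rfl⟩; exact dB N⟩
  have lim := tendsto_atTop_ciSup mono bdd
  have ex : ∀ N : ℕ, ∃ x ∈ K N, ‖x‖ ^ 2 < d N + 1 / ((N : ℝ) + 1) := fun N => by
    obtain ⟨_, ⟨x, hx, rfl⟩, h⟩ := exists_lt_of_csInf_lt ((hne N).image fun x => ‖x‖ ^ 2)
      (lt_add_of_pos_right (d N) (by positivity : 0 < 1 / ((N : ℝ) + 1)))
    exact ⟨x, hx, h⟩
  choose g hg hg' using ex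
  have hc : CauchySeq g := by
    refine cauchySeq_of_le_tendsto_0'
      (fun N => Real.sqrt (2 * ((⨆ i, d i) - d N) + 4 * (1 / ((N : ℝ) + 1)))) (fun N M h => ?_) ?_
    · rw [dist_eq_norm]
      refine Real.le_sqrt_of_sq_le ?_
      have h1 := hd N _ (hmid N _ (hg N) _ (hanti h (hg M)))
      rw [norm_smul, mul_pow] at h1
      have h2 := parallelogram_law_with_norm ℂ (g N) (g M)
      have h3 : 1 / ((M : ℝ) + 1) ≤ 1 / ((N : ℝ) + 1) :=
        one_div_le_one_div_of_le (by positivity) (by exact_mod_cast Nat.succ_le_succ h)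
      have h4 := le_ciSup bdd M
      have h5 : ‖(1 / 2 : ℂ)‖ ^ 2 = 1 / 4 := by simp; norm_num
      rw [h5] at h1
      linarith only [h1, h2, h3, h4, hg', hg' N, hg' M]
    · have := (((lim.const_sub (⨆ i, d i)).const_mul 2).add
        ((tendsto_one_div_add_atTop_nhds_zero_nat (𝕜 := ℝ)).const_mul 4)).sqrt
      simpa using this
  obtain ⟨G, hG⟩ := cauchySeq_tendsto_of_complete hc
  exact ⟨g, G, hg, hG⟩


lemma IsH.re_le_of_ev {F : TT → ℂ} (hF : IsH F) {K : ℝ}
    (hK : ∀ z : ℂ, ‖z‖ < 1 → (ev F z).re ≤ K) : ∀ᵐ x ∂mm, (F x).re ≤ K := by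
  have hi := integrable_of_memLp hF.1
  have hH : ∀ n, IsH fun x => ev F (rr n * ee x) := fun n =>
    dc_isH (g := fun z => ev F (rr n * z)) (dilate_dc (ev_diff hi) (rr_abs n))
  have hb : ∀ n x, (max ((F x).re - K) 0) ^ 2 ≤ ‖ev F (rr n * ee x) - F x‖ ^ 2 := fun n x => by
    refine pow_le_pow_left₀ (le_max_right _ _) (max_le ?_ (norm_nonneg _)) 2
    have h1 := hK _ (mem_ball_zero_iff.1 (rr_mem n x))
    have h2 := re_le_norm (F x - ev F (rr n * ee x))
    rw [norm_sub_rev, sub_re] at h2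
    linarith
  have i1 : Integrable (fun x => (max ((F x).re - K) 0) ^ 2) mm :=
    (integrable_normsq ((hH 0).sub hF).1).mono'
      ((by fun_prop : Continuous fun z : ℂ => (max (z.re - K) 0) ^ 2).comp_aestronglyMeasurable
        hF.1.1) (Eventually.of_forall fun x => by
        rw [Real.norm_eq_abs, abs_of_nonneg (by positivity)]; exact hb 0 x)
  have h0 : ∫ x, (max ((F x).re - K) 0) ^ 2 ∂mm = 0 :=
    le_antisymm (ge_of_tendsto' (dilate_tendsto hF) fun n =>
      integral_mono i1 (integrable_normsq ((hH n).sub hF).1) (hb n))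
      (integral_nonneg fun x => by positivity)
  filter_upwards [(integral_eq_zero_iff_of_nonneg (fun x => by positivity) i1).1 h0] with x hx
  have := max_eq_right_iff.1 (pow_eq_zero_iff two_ne_zero |>.1 hx)
  linarith

lemma ev_const_mul (c : ℂ) (F : TT → ℂ) (z : ℂ) : ev (fun x => c * F x) z = c * ev F z := by
  unfold ev
  simp_rw [mul_left_comm _ c]
  exact integral_const_mul _ _

lemma exists_log {ω : ℂ} (hω : ‖ω‖ = 1) : ∃ F, IsH F ∧ (∀ᵐ x ∂mm, |(F x).re| ≤ Real.pi / 2) ∧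
    ∀ z : ℂ, ‖z‖ < 1 → (ev F z).im = -Real.log ‖1 - conj ω * z‖ := by
  obtain ⟨F, hF, hc⟩ := exists_isH_of_summable (a := fun n => conj ω ^ n / n) (by
    simp [hω])
  have hev : ∀ z : ℂ, ‖z‖ < 1 → ev F z = -log (1 - conj ω * z) := fun z hz => by
    refine (hasSum_ev (integrable_of_memLp hF.1) hz).unique ?_
    have := hasSum_taylorSeries_neg_log (z := conj ω * z) (by simpa [hω] using hz)
    have e : ∀ n : ℕ, fourierCoeff F n * z ^ n = (conj ω * z) ^ n / n := fun n => by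
      rw [hc]; ring
    simp_rw [e]
    exact this
  have harg : ∀ z : ℂ, ‖z‖ < 1 → |arg (1 - conj ω * z)| ≤ Real.pi / 2 := fun z hz => by
    refine abs_arg_le_pi_div_two_iff.2 ?_
    have := re_le_norm (conj ω * z)
    rw [norm_mul, norm_conj, hω] at this
    rw [sub_re, one_re]; linarith
  refine ⟨fun x => I * F x, hF.const_mul I, ?_, fun z hz => ?_⟩
  · have h1 := (hF.const_mul I).re_le_of_ev (K := Real.pi / 2) fun z hz => by
      rw [ev_const_mul, hev z hz]
      simpa [log_im] using (abs_le.1 (harg z hz)).2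
    have h2 := (hF.const_mul (-I)).re_le_of_ev (K := Real.pi / 2) fun z hz => by
      rw [ev_const_mul, hev z hz]
      have := (abs_le.1 (harg z hz)).1
      simp [log_im]; linarith only [this]
    filter_upwards [h1, h2] with x h1 h2
    rw [neg_mul, neg_re] at h2
    exact abs_le.2 ⟨by linarith only [h2], h1⟩
  · rw [ev_const_mul, hev z hz]
    simp [log_re]

lemma IsPre.integral_congr {S : TT → TT} (h : IsPre S) {F G : TT → ℂ} (e : F =ᵐ[mm] G) :
    ∫ x, F (S x) ∂mm = ∫ x, G (S x) ∂mm := by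
  refine integral_congr_ae ?_
  filter_upwards [h.ae e] with x hx
  exact hx

lemma IsBdry.exists_hyp {φ : ℂ → ℂ} {S : TT → TT} (h : IsBdry φ S) {ω : ℂ} (hω : ‖ω‖ = 1)
    {α : ℝ} (hα1 : α < 1)
    (hα : Tendsto (fun r : ℝ => (φ (r * ω) - ω) / (r * ω - ω)) (𝓝[<] 1) (𝓝 α)) :
    ∃ L k K, IsHyp S L k K := by
  obtain ⟨h0, hit⟩ := iterate_bound h.diff h.maps hω hα
  obtain ⟨F, hF, hre, him⟩ := exists_log hω
  have hS := h.isSys
  set c : ℝ := -Real.log α / 2 with hc
  have hc0 : 0 < c := by have := Real.log_neg h0 hα1; rw [hc]; linarith only [this]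
  have it : ∀ j : ℕ, IsH (fun x => F (S^[j] x)) ∧ (∀ᵐ x ∂mm, |(F (S^[j] x)).re| ≤ Real.pi / 2) ∧
      ∀ z : ℂ, ‖z‖ < 1 → ev (fun x => F (S^[j] x)) z = ev F (φ^[j] z) := by
    intro j
    induction j with
    | zero => exact ⟨hF, hre, fun _ _ => rfl⟩
    | succ j ih =>
      simp only [Function.iterate_succ_apply]
      exact ⟨hS.presH (fun x => F (S^[j] x)) ih.1,
        hS.ae (p := fun x => |(F (S^[j] x)).re| ≤ Real.pi / 2) ih.2.1, fun z hz =>
        (h.ev_comp (F := fun x => F (S^[j] x)) ih.1 hz).trans (ih.2.2 _ (h.norm_lt hz))⟩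
  let m : ℕ → ℂ := fun j => ∫ x, F (S^[j] x) ∂mm
  have hm1 : ∀ j, |(m j).re| ≤ Real.pi / 2 := fun j => by
    have h1 := integral_re (integrable_of_memLp (it j).1.1)
    simp only [RCLike.re_to_complex] at h1
    have h2 := norm_integral_le_of_norm_le_const (μ := mm) (f := fun x => (F (S^[j] x)).re)
      (C := Real.pi / 2) (it j).2.1
    rw [h1] at h2
    simpa using h2
  have hm2 : ∀ j, j * c ≤ (m j).im := fun j => by
    have h1 : m j = ev F (φ^[j] 0) := by rw [← (it j).2.2 0 (by simp), ev_zero]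
    rw [h1, him _ (hit j).1, hc]
    have h2 : 0 < ‖1 - conj ω * φ^[j] 0‖ := norm_pos_iff.2 fun h => by
      have h1 : ‖conj ω * φ^[j] 0‖ = 1 := by rw [← sub_eq_zero.1 h, norm_one]
      rw [norm_mul, norm_conj, hω] at h1
      linarith only [h1, hit, (hit j).1]
    have h3 := Real.log_le_log (by positivity) (hit j).2
    rw [Real.log_pow, Real.log_pow] at h3
    push_cast at h3
    linarith only [h3]
  have hm0 : (m 0).im = 0 := by
    have h1 : m 0 = ev F (φ^[0] 0) := by rw [← (it 0).2.2 0 (by simp), ev_zero]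
    rw [h1, him _ (hit 0).1]; simp
  let K : ℕ → Set LL := fun N => {G | IsH0 G ∧ (∀ᵐ x ∂mm, |(G x).re| ≤ Real.pi) ∧
    (∀ᵐ x ∂mm, |(G (S x)).re - (G x).re| ≤ Real.pi / (N + 1)) ∧ c ≤ (∫ x, G (S x) ∂mm).im}
  have hne : ∀ N, (K N).Nonempty := by
    intro N
    have hN : (0 : ℝ) < (N : ℝ) + 1 := by positivity
    let A : TT → ℂ := fun x => ((1 / ((N : ℝ) + 1) : ℝ) : ℂ) *
      ∑ j ∈ Finset.range (N + 1), (F (S^[j] x) - m j)
    have hA : IsH0 A := by
      refine IsH0.const_mul ?_ _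
      induction Finset.range (N + 1) using Finset.induction_on with
      | empty => simpa using isLin_H0.zero
      | insert a s ha ih => simpa only [Finset.sum_insert ha] using (it a).1.sub_mean.add ih
    have tel : ∀ x, A (S x) = A x + ((1 / ((N : ℝ) + 1) : ℝ) : ℂ) * (F (S^[N + 1] x) - F x) := by
      intro x
      have := Finset.sum_range_sub (fun j => F (S^[j] x)) (N + 1)
      simp only [A, ← mul_add]
      congr 1
      rw [Function.iterate_zero_apply] at this
      rw [← this, ← Finset.sum_add_distrib]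
      refine Finset.sum_congr rfl fun j _ => ?_
      rw [Function.iterate_succ_apply]; ring
    have e := hA.1.coeFn_toLp
    refine ⟨hA.1.toLp A, hA.congr e.symm, ?_, ?_, ?_⟩
    · filter_upwards [e, ae_all_iff.2 fun j => (it j).2.1] with x h1 h2
      rw [h1]
      simp only [A, re_ofReal_mul, re_sum, sub_re]
      rw [abs_mul, abs_of_pos (by positivity)]
      have h3 : |∑ j ∈ Finset.range (N + 1), ((F (S^[j] x)).re - (m j).re)| ≤ (N + 1) * Real.pi := by
        refine (Finset.abs_sum_le_sum_abs _ _).trans ((Finset.sum_le_card_nsmul _ _ Real.pi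
          fun j _ => (abs_sub _ _).trans (by linarith only [h2, hm1, h2 j, hm1 j])).trans (by simp))
      calc _ ≤ 1 / ((N : ℝ) + 1) * ((N + 1) * Real.pi) := by gcongr
        _ = _ := by field_simp
    · filter_upwards [e, hS.ae e, (it (N + 1)).2.1, hre] with x h1 h2 h3 h4
      rw [h1, h2, tel, add_re, add_sub_cancel_left, re_ofReal_mul, sub_re, abs_mul,
        abs_of_pos (by positivity), one_div_mul_eq_div]
      exact div_le_div_of_nonneg_right ((abs_sub _ _).trans (by linarith only [h3, h4])) hN.le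
    · rw [hS.integral_congr e]
      simp_rw [tel]
      have i1 := integrable_of_memLp (it (N + 1)).1.1
      have i2 := integrable_of_memLp hF.1
      have i3 : Integrable (fun x => F (S^[N + 1] x) - F x) mm := i1.sub i2
      rw [integral_add (integrable_of_memLp hA.1) (i3.const_mul _), hA.mean, zero_add,
        integral_const_mul, integral_sub i1 i2, im_ofReal_mul, sub_im]
      have h1 := hm2 (N + 1)
      change (∫ x, F x ∂mm).im = 0 at hm0
      rw [hm0, sub_zero, one_div_mul_eq_div, le_div_iff₀ hN]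
      push_cast at h1
      linarith only [h1]
  obtain ⟨g, G, hg, hG⟩ := exists_limit hne (fun N M hNM G hG => ⟨hG.1, hG.2.1, by
      filter_upwards [hG.2.2.1] with x hx
      exact hx.trans (div_le_div_of_nonneg_left Real.pi_pos.le (by positivity)
        (by exact_mod_cast Nat.succ_le_succ hNM)), hG.2.2.2⟩)
    (fun N x hx y hy => by
      have e : (((1 / 2 : ℂ) • (x + y) : LL) : TT → ℂ) =ᵐ[mm]
          fun t => ((1 / 2 : ℝ) : ℂ) * (x t + y t) := by
        filter_upwards [Lp.coeFn_smul (1 / 2 : ℂ) (x + y), Lp.coeFn_add x y] with t h1 h2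
        rw [h1, Pi.smul_apply, h2]; simp
      refine ⟨((hx.1.add hy.1).const_mul _).congr e.symm, ?_, ?_, ?_⟩
      · filter_upwards [e, hx.2.1, hy.2.1] with t h1 h2 h3
        rw [h1, re_ofReal_mul, add_re, abs_le] at *
        constructor <;> linarith only [h2, h3]
      · filter_upwards [e, hS.ae e, hx.2.2.1, hy.2.2.1] with t h1 h1' h2 h3
        rw [h1, h1', re_ofReal_mul, re_ofReal_mul, add_re, add_re]
        rw [abs_le] at *
        constructor <;> linarith only [h2, h3]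
      · rw [hS.integral_congr e, integral_const_mul,
          integral_add (integrable_of_memLp (hS.memLp hx.1.1))
            (integrable_of_memLp (hS.memLp hy.1.1)), im_ofReal_mul, add_im]
        linarith only [hx, hy, hx.2.2.2, hy.2.2.2])
    (B := 2 * Real.pi ^ 2) (fun N x hx => by
      have h1 := (hx.1.const_mul I).normsq_eq
      simp only [norm_mul, norm_I, one_mul, I_mul_im] at h1
      rw [normsq_LL, h1]
      have h2 := norm_integral_le_of_norm_le_const (μ := mm) (f := fun t => (x t).re ^ 2)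
        (C := Real.pi ^ 2) (by
          filter_upwards [hx.2.1] with t ht
          rw [norm_pow]; exact pow_le_pow_left₀ (norm_nonneg _) ht 2)
      have h3 := le_abs_self (∫ t, (x t).re ^ 2 ∂mm)
      simp only [Real.norm_eq_abs, probReal_univ, mul_one] at h2
      linarith only [h3, h2])
  have hG0 : IsH0 G := isClosed_H0.mem_of_tendsto hG (Eventually.of_forall fun N => (hg N).1)
  obtain ⟨ns, hns, hae⟩ := (tendstoInMeasure_of_tendsto_Lp hG).exists_seq_tendsto_ae
  have hb : ∀ᵐ x ∂mm, |(G x).re| ≤ Real.pi := by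
    filter_upwards [hae, ae_all_iff.2 fun N => (hg N).2.1] with x h1 h2
    exact le_of_tendsto' ((continuous_re.tendsto _).comp h1).abs fun i => h2 _
  have hi : ∀ᵐ x ∂mm, (G (S x) - G x).re = 0 := by
    filter_upwards [hae, hS.ae hae, ae_all_iff.2 fun N => (hg N).2.2.1] with x h1 h1' h2
    have l1 := (((continuous_re.tendsto _).comp h1').sub ((continuous_re.tendsto _).comp h1)).abs
    have l2 : Tendsto (fun i => Real.pi / ((ns i : ℝ) + 1)) atTop (𝓝 0) :=
      tendsto_const_nhds.div_atTop (tendsto_atTop_add_const_right _ _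
        (tendsto_natCast_atTop_atTop.comp hns.tendsto_atTop))
    have := le_of_tendsto_of_tendsto' l1 l2 fun i => h2 _
    rw [sub_re]; exact abs_nonpos_iff.1 this
  have hc' : c ≤ (∫ x, G (S x) ∂mm).im := by
    obtain ⟨C, hC⟩ := hS.exists_clm
    have e : ∀ G : LL, ∫ x, G (S x) ∂mm = ⟪memLp_one.toLp _, C G⟫_ℂ := fun G => by
      rw [inner_clm hC, hS.qq_congr memLp_one.coeFn_toLp EventuallyEq.rfl, qq]; simp
    have hcont : Continuous fun G : LL => (⟪memLp_one.toLp _, C G⟫_ℂ).im := by fun_prop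
    rw [e]
    exact ge_of_tendsto' ((hcont.tendsto G).comp hG) fun N => by
      have := (hg N).2.2.2
      rwa [e] at this
  obtain ⟨k, hk⟩ := ((hS.presH _ hG0.isH).sub hG0.isH).const_of_re hi
  have hk' : ∀ᵐ x ∂mm, G (S x) = G x + I * k := by
    filter_upwards [hk] with x hx
    rw [← hx]; ring
  refine ⟨G, k, Real.pi, hG0.isH, hb, hk', ?_⟩
  rw [integral_congr_ae hk', integral_add (integrable_of_memLp hG0.1) (integrable_const _),
    hG0.mean] at hc'
  simp at hc'
  linarith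

end Pool.Agent.Work.MP_f96e05_an
end
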